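import Mathlib
import Pool.Agent.H932R2.Initial

set_option autoImplicit false

/-!
# Compressions of shapes with long rows
-/

namespace Pool.Agent.W609

open Polynomial Pool.Agent.H932R2

/-- Compression of a shape with `u + 1` long rows: the numbers `D l + ρ l` are sorted. -/
theorem domY_rows {u ρ B : ℕ} {D D' : ℕ → ℕ} (hB : u ≤ B)
    (h0 : ∀ l ≤ u, ρ * u ≤ D l + ρ * l)
    (h1 : ∀ q ≤ u, ∃ g : ℕ → ℕ, (∀ a b, a ≤ q → b ≤ q → g a = g b → a = b) ∧
      ∀ a ≤ q, g a ≤ u ∧ D' q + ρ * q ≤ D (g a) + ρ * g a) :
    DomY ρ B (↑(rowsF (u + 1) D) : Set (ℕ × ℕ)) (↑(rowsF (u + 1) D') : Set (ℕ × ℕ)) := by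
  refine domY_of_inj fun i q hp => ?_
  rw [Finset.mem_coe, mem_rowsF] at hp
  obtain ⟨hq, hi⟩ := hp
  rcases Nat.lt_or_ge (i + ρ * q) (ρ * u) with h | h
  · refine ⟨fun a => a, fun a b _ _ hab => hab, fun a ha => ?_⟩
    beta_reduce
    have h2 : ρ * a ≤ ρ * q := Nat.mul_le_mul_left _ ha
    refine ⟨by omega, by omega, fun x hx => ?_⟩
    rw [Finset.mem_coe, mem_rowsF]
    have h3 := h0 a (by omega)
    exact ⟨by omega, by omega⟩
  · obtain ⟨g, hg1, hg2⟩ := h1 q (by omega)
    refine ⟨g, hg1, fun a ha => ?_⟩
    obtain ⟨h2, h3⟩ := hg2 a ha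
    have h4 : ρ * g a ≤ ρ * u := Nat.mul_le_mul_left _ h2
    refine ⟨by omega, by omega, fun x hx => ?_⟩
    rw [Finset.mem_coe, mem_rowsF]
    exact ⟨by omega, by omega⟩

/-- `u + 1` rows of slope `s` with top row `T`, except that the top row is shorter by `e`. -/
def blk (s u T e : ℕ) : Finset (ℕ × ℕ) :=
  rowsF (u + 1) fun l => if l = u then T - e else s * (u - l) + T

/-- `u + 1` rows of slope `s` with top row `T` and one more element in the first `j` rows. -/
def Lz (s u T j : ℕ) : Finset (ℕ × ℕ) :=
  rowsF (u + 1) fun l => s * (u - l) + T + if l < j then 1 else 0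

theorem Lz_eq (s u T j : ℕ) : Lz s u T j = Lfin s u T j := rfl

/-- The first step: the deficit of the top row is diminished. -/
theorem step_A {s u T e Δ B : ℕ} (hB : u ≤ B) (he : e ≤ T) :
    DomY (s + Δ) B (↑(blk s u (T + Δ * (u + 1)) (e + Δ * (u + 1))) : Set (ℕ × ℕ))
      (↑(blk (s + 2 * Δ) u T e) : Set (ℕ × ℕ)) := by
  refine domY_rows hB (fun l hl => ?_) (fun q hq => ?_)
  · obtain ⟨w, rfl⟩ := Nat.exists_eq_add_of_le hl
    rcases Nat.eq_zero_or_pos w with rfl | hw
    · rw [if_pos (by omega)]
      simp only [add_zero]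
      omega
    · rw [if_neg (by omega), Nat.add_sub_cancel_left]
      have e1 : (s + Δ) * (l + w) = s * l + s * w + Δ * l + Δ * w := by ring
      have e2 : Δ * (l + w + 1) = Δ * l + Δ * w + Δ := by ring
      have e3 : (s + Δ) * l = s * l + Δ * l := by ring
      rw [e1, e2, e3]
      omega
  · rcases Nat.lt_or_ge q u with h | h
    · obtain ⟨w, rfl⟩ : ∃ w, u = q + w + 1 := ⟨u - q - 1, by omega⟩
      refine ⟨fun a => q + w - a, fun a b ha hb hab => by beta_reduce at hab; omega,
        fun a ha => ?_⟩
      beta_reduce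
      obtain ⟨b, rfl⟩ := Nat.exists_eq_add_of_le ha
      have e0 : a + b + w - a = b + w := by omega
      rw [e0]
      refine ⟨by omega, ?_⟩
      rw [if_neg (by omega), if_neg (by omega)]
      have e1 : a + b + w + 1 - (a + b) = w + 1 := by omega
      have e2 : a + b + w + 1 - (b + w) = a + 1 := by omega
      rw [e1, e2]
      have e3 : (s + 2 * Δ) * (w + 1) + T + (s + Δ) * (a + b) =
        s * a + s * b + s * w + s + T + Δ * a + Δ * b + 2 * (Δ * w) + 2 * Δ := by ring
      have e4 : s * (a + 1) + (T + Δ * (a + b + w + 1 + 1)) + (s + Δ) * (b + w) =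
        s * a + s * b + s * w + s + T + Δ * a + 2 * (Δ * b) + 2 * (Δ * w) + 2 * Δ := by ring
      rw [e3, e4]
      have := Nat.zero_le (Δ * b)
      omega
    · obtain rfl : q = u := le_antisymm hq h
      refine ⟨fun a => a, fun a b _ _ hab => hab, fun a ha => ?_⟩
      beta_reduce
      refine ⟨ha, ?_⟩
      rw [if_pos rfl]
      obtain ⟨w, rfl⟩ := Nat.exists_eq_add_of_le ha
      rcases Nat.eq_zero_or_pos w with rfl | hw
      · rw [if_pos (by omega)]
        simp only [add_zero]
        have : T - e ≤ T + Δ * (a + 1) - (e + Δ * (a + 1)) := by omega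
        omega
      · rw [if_neg (by omega), Nat.add_sub_cancel_left]
        have e1 : (s + Δ) * (a + w) = s * a + s * w + Δ * a + Δ * w := by ring
        have e2 : Δ * (a + w + 1) = Δ * a + Δ * w + Δ := by ring
        have e3 : (s + Δ) * a = s * a + Δ * a := by ring
        rw [e1, e2, e3]
        omega

/-- Sorting the rows of a shape of slope `s`. -/
theorem step_sort {s u T a b B : ℕ} (hB : u ≤ B) (hb : b ≤ u + 1) :
    DomY s B (↑(rowsF (u + 1) fun l => s * (u - l) + T + if a ≤ l ∧ l < b then 1 else 0) :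
      Set (ℕ × ℕ)) (↑(Lz s u T (b - a)) : Set (ℕ × ℕ)) := by
  refine domY_rows hB (fun l hl => ?_) (fun q hq => ?_)
  · obtain ⟨w, rfl⟩ := Nat.exists_eq_add_of_le hl
    rw [Nat.add_sub_cancel_left]
    have e1 : s * (l + w) = s * l + s * w := by ring
    rw [e1]
    omega
  · beta_reduce
    have key : ∀ x ≤ u, s * (u - x) + s * x = s * u := by
      intro x hx
      obtain ⟨w, rfl⟩ := Nat.exists_eq_add_of_le hx
      rw [Nat.add_sub_cancel_left]
      ring
    have kq := key q hq
    by_cases h : q < b - a
    · refine ⟨fun x => a + x, fun x y _ _ hxy => by beta_reduce at hxy; omega, fun x hx => ?_⟩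
      beta_reduce
      refine ⟨by omega, ?_⟩
      have kx := key (a + x) (by omega)
      rw [if_pos h, if_pos (by omega)]
      omega
    · refine ⟨fun x => x, fun x y _ _ hxy => hxy, fun x hx => ?_⟩
      beta_reduce
      refine ⟨by omega, ?_⟩
      have kx := key x (by omega)
      rw [if_neg h]
      omega

/-- A small deficit of the top row, no row is lost: first compression. -/
theorem step_B {s u T e B : ℕ} (hB : u ≤ B) (he : e ≤ u) :
    DomY (s + 1) B (↑(blk s u (T + u + 1) e) : Set (ℕ × ℕ))
      (↑(rowsF (u + 1) fun l => (s + 2) * (u - l) + T + if e ≤ l ∧ l < u + 1 then 1 else 0) :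
        Set (ℕ × ℕ)) := by
  refine domY_rows hB (fun l hl => ?_) (fun q hq => ?_)
  · obtain ⟨w, rfl⟩ := Nat.exists_eq_add_of_le hl
    have e1 : (s + 1) * (l + w) = s * l + s * w + l + w := by ring
    have e3 : (s + 1) * l = s * l + l := by ring
    rcases Nat.eq_zero_or_pos w with rfl | hw
    · rw [if_pos (by omega)]
      simp only [add_zero]
      omega
    · rw [if_neg (by omega), Nat.add_sub_cancel_left, e1, e3]
      omega
  · beta_reduce
    obtain ⟨w, rfl⟩ := Nat.exists_eq_add_of_le hq
    rw [Nat.add_sub_cancel_left]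
    have e1 : (s + 2) * w = s * w + 2 * w := by ring
    have e2 : (s + 1) * q = s * q + q := by ring
    have key : ∀ a, a < q + w → (if q + w - 1 - a = q + w then T + (q + w) + 1 - e
        else s * (q + w - (q + w - 1 - a)) + (T + (q + w) + 1)) + (s + 1) * (q + w - 1 - a) =
        s * q + s * w + T + 2 * q + 2 * w - a := by
      intro a ha
      obtain ⟨b, hb⟩ := Nat.exists_eq_add_of_lt ha
      rw [if_neg (by omega)]
      have e3 : q + w - 1 - a = b := by omega
      have e4 : q + w - b = a + 1 := by omega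
      rw [e3, e4]
      have e5 : s * q + s * w = s * a + s * b + s := by
        rw [← Nat.mul_add, hb]
        ring
      have e6 : (s + 1) * b = s * b + b := by ring
      have e7 : s * (a + 1) = s * a + s := by ring
      omega
    by_cases h : e ≤ q
    · refine ⟨fun a => if a < q then q + w - 1 - a else q + w, fun a b ha hb hab => ?_,
        fun a ha => ?_⟩
      · beta_reduce at hab
        split_ifs at hab <;> omega
      · beta_reduce
        by_cases haq : a < q
        · rw [if_pos haq]
          refine ⟨by omega, ?_⟩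
          have k := key a (by omega)
          rw [k]
          split_ifs <;> omega
        · rw [if_neg haq]
          refine ⟨by omega, ?_⟩
          rw [if_pos rfl]
          have e8 : (s + 1) * (q + w) = s * q + s * w + q + w := by ring
          split_ifs <;> omega
    · refine ⟨fun a => q + w - 1 - a, fun a b ha hb hab => ?_, fun a ha => ?_⟩
      · beta_reduce at hab
        omega
      · beta_reduce
        refine ⟨by omega, ?_⟩
        have k := key a (by omega)
        rw [k]
        rw [if_neg (by omega)]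
        omega

/-- A small deficit of the top row, one row is lost: first compression. -/
theorem step_B' {s v T e B : ℕ} (hB : v + 1 ≤ B) (he : e ≤ T) (hT : T ≤ v + 1)
    {t : ℕ} (ht : t + v = s + T) :
    DomY (s + 1) B (↑(blk s (v + 1) T e) : Set (ℕ × ℕ))
      (↑(rowsF (v + 1) fun l => (s + 2) * (v - l) + t + if e ≤ l ∧ l < T then 1 else 0) :
        Set (ℕ × ℕ)) := by
  refine domY_of_inj fun i q hp => ?_
  rw [Finset.mem_coe, mem_rowsF] at hp
  obtain ⟨hq, hi⟩ := hp
  obtain ⟨w, rfl⟩ : ∃ w, v = q + w := Nat.exists_eq_add_of_le (by omega)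
  rw [Nat.add_sub_cancel_left] at hi
  have e1 : (s + 2) * w = s * w + 2 * w := by ring
  have e2 : (s + 1) * q = s * q + q := by ring
  have e3 : (s + 1) * (q + w) = s * q + s * w + q + w := by ring
  have e4 : (s + 1) * (q + w + 1) = s * q + s * w + q + w + s + 1 := by ring
  have mem : ∀ l, l < q + w + 1 → ∀ x, x + (s + 1) * l = i + (s + 1) * q →
      i + (s + 1) * q < s * q + s * w + s + T + l →
      ((x, l) : ℕ × ℕ) ∈ (↑(blk s (q + w + 1) T e) : Set (ℕ × ℕ)) := by
    intro l hl x hx hlt
    rw [Finset.mem_coe, blk, mem_rowsF]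
    refine ⟨by omega, ?_⟩
    rw [if_neg (by omega)]
    obtain ⟨b, hb⟩ := Nat.exists_eq_add_of_lt hl
    have e5 : q + w + 1 - l = b + 1 := by omega
    rw [e5]
    have e6 : s * q + s * w = s * l + s * b := by
      rw [← Nat.mul_add, ← Nat.mul_add]
      congr 1
      omega
    have e7 : s * (b + 1) = s * b + s := by ring
    have e8 : (s + 1) * l = s * l + l := by ring
    omega
  rcases Nat.lt_or_ge (i + (s + 1) * q) ((s + 1) * (q + w)) with h1 | h1
  · -- all rows are long enough
    refine ⟨fun a => a, fun a b _ _ hab => hab, fun a ha => ?_⟩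
    beta_reduce
    have h2 : (s + 1) * a ≤ (s + 1) * q := Nat.mul_le_mul_left _ ha
    refine ⟨by omega, by omega, fun x hx => mem a (by omega) x hx (by omega)⟩
  · have hlow : ∀ a ≤ q, (s + 1) * (q + w - a) ≤ i + (s + 1) * q := by
      intro a ha
      exact (Nat.mul_le_mul_left _ (by omega)).trans h1
    by_cases h : e ≤ q ∧ q < T
    · rw [if_pos h] at hi
      rcases Nat.lt_or_ge (i + (s + 1) * q) ((s + 1) * (q + w + 1)) with h3 | h3
      · refine ⟨fun a => q + w - a, fun a b ha hb hab => ?_, fun a ha => ?_⟩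
        · beta_reduce at hab
          omega
        · beta_reduce
          exact ⟨by omega, hlow a ha, fun x hx => mem _ (by omega) x hx (by omega)⟩
      · refine ⟨fun a => if a < q then q + w - a else q + w + 1, fun a b ha hb hab => ?_,
          fun a ha => ?_⟩
        · beta_reduce at hab
          split_ifs at hab <;> omega
        · beta_reduce
          by_cases haq : a < q
          · rw [if_pos haq]
            exact ⟨by omega, hlow a ha, fun x hx => mem _ (by omega) x hx (by omega)⟩
          · rw [if_neg haq]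
            refine ⟨by omega, h3, fun x hx => ?_⟩
            rw [Finset.mem_coe, blk, mem_rowsF]
            refine ⟨by omega, ?_⟩
            rw [if_pos rfl]
            omega
    · rw [if_neg h] at hi
      refine ⟨fun a => q + w - a, fun a b ha hb hab => ?_, fun a ha => ?_⟩
      · beta_reduce at hab
        omega
      · beta_reduce
        exact ⟨by omega, hlow a ha, fun x hx => mem _ (by omega) x hx (by omega)⟩

/-- Flattening: first compression. -/
theorem step_C {s u T j Δ B : ℕ} (hB : u ≤ B) (hΔ : 0 < Δ) :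
    DomY (s + Δ) B (↑(Lz s u (T + Δ * u) j) : Set (ℕ × ℕ))
      (↑(rowsF (u + 1) fun l => (s + 2 * Δ) * (u - l) + T +
        if u + 1 - j ≤ l ∧ l < u + 1 then 1 else 0) : Set (ℕ × ℕ)) := by
  refine domY_rows hB (fun l hl => ?_) (fun q hq => ?_)
  · obtain ⟨w, rfl⟩ := Nat.exists_eq_add_of_le hl
    rw [Nat.add_sub_cancel_left]
    have e1 : (s + Δ) * (l + w) = s * l + s * w + Δ * l + Δ * w := by ring
    have e2 : Δ * (l + w) = Δ * l + Δ * w := by ring
    have e3 : (s + Δ) * l = s * l + Δ * l := by ring
    rw [e1, e2, e3]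
    omega
  · refine ⟨fun a => u - a, fun a b ha hb hab => by beta_reduce at hab; omega, fun a ha => ?_⟩
    beta_reduce
    refine ⟨by omega, ?_⟩
    obtain ⟨b, rfl⟩ := Nat.exists_eq_add_of_le ha
    obtain ⟨w, rfl⟩ := Nat.exists_eq_add_of_le hq
    have e1 : a + b + w - (a + b) = w := by omega
    have e2 : a + b + w - a = b + w := by omega
    have e3 : a + b + w - (b + w) = a := by omega
    rw [e2, e3, e1]
    have e4 : (s + 2 * Δ) * w + T + (s + Δ) * (a + b) + Δ * b =
      s * a + (T + Δ * (a + b + w)) + (s + Δ) * (b + w) := by ring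
    rcases Nat.eq_zero_or_pos b with rfl | hb
    · simp only [add_zero, zero_add, mul_zero] at e4 ⊢
      split_ifs <;> omega
    · have h1 : 1 ≤ Δ * b := Nat.mul_pos hΔ hb
      split_ifs <;> omega

end Pool.Agent.W609
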