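import Mathlib
import Pool.Agent.H932R3.MasterS
import Pool.Agent.W609.Trap

set_option autoImplicit false

/-!
# From balanced shapes to the triangle without a corner
-/

namespace Pool.Agent.W609

open Polynomial Pool.Agent.H932R2 Pool.Agent.H932R3

variable {K : Type*} [Field K] [CharZero K] {𝓘 : Set (Ideal K[X][X])} {n : ℕ}

theorem hKz (B : ℕ) : ∀ k : ℕ, 0 < k → k ≤ B → (k : K) ≠ 0 := fun k hk _ => by
  exact_mod_cast hk.ne'

theorem infK : Infinite K := CharZero.infinite K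

/-- Flattening a balanced shape with a long top row. -/
theorem flatten (h𝓘 : Stable 𝓘) {s u T j : ℕ} (hj : j ≤ u + 1) (Δ : ℕ)
    (h : RkS 𝓘 (↑(Lz (s + 2 * Δ) u T j) : Set (ℕ × ℕ)) n) :
    RkS 𝓘 (↑(Lz s u (T + Δ * u) j) : Set (ℕ × ℕ)) n := by
  have : Infinite K := infK
  rcases Nat.eq_zero_or_pos Δ with rfl | hΔ
  · simpa using h
  · refine RkS.compressY h𝓘 (s + Δ) u (hKz u) (step_C le_rfl hΔ) ?_
    refine RkS.compressY h𝓘 (s + 2 * Δ) u (hKz u) (step_sort le_rfl le_rfl) ?_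
    have e : u + 1 - (u + 1 - j) = j := by omega
    rw [e]
    exact h

theorem blk_zero (s u T : ℕ) : blk s u T 0 = Lz s u T 0 := by
  unfold blk Lz
  congr 1
  funext l
  by_cases h : l = u
  · subst h
    simp
  · simp [h]

/-- Reaching a balanced shape with a short top row. -/
theorem good_flat (h𝓘 : Stable 𝓘) {s u T j S : ℕ} (hs : 0 < s) (hu : 0 < u) (hj : j ≤ u + 1)
    (hS : s * u * (u + 1) + 2 * (u + 1) * T + 2 * j = S) (hFR : u * (u + 1) * (u + 2) ≤ S) :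
    ∃ s' t', 0 < s' ∧ Good s' u t' j ∧ sz s' u t' j = S ∧ s' % 2 = s % 2 ∧
      ∀ n, RkS 𝓘 (↑(Lfin s' u t' j) : Set (ℕ × ℕ)) n → RkS 𝓘 (↑(Lz s u T j) : Set (ℕ × ℕ)) n := by
  obtain ⟨Δ, hΔ⟩ : ∃ Δ, Δ = T / u := ⟨_, rfl⟩
  obtain ⟨t, ht⟩ : ∃ t, t = T % u := ⟨_, rfl⟩
  have h1 : T = t + Δ * u := by
    rw [hΔ, ht, mul_comm]
    exact (Nat.mod_add_div T u).symm
  have h2 : t < u := by
    rw [ht]
    exact Nat.mod_lt _ hu
  have h3 : (s + 2 * Δ) * u * (u + 1) + 2 * (u + 1) * t + 2 * j = S := by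
    rw [← hS, h1]
    ring
  have h4 : u ≤ s + 2 * Δ := by
    by_contra hcon
    push Not at hcon
    have h5 : (s + 2 * Δ) * u * (u + 1) + 2 * (u + 1) * t + 2 * j <
        u * (u + 1) * (u + 2) := by
      have h6 : (s + 2 * Δ + 1) * (u * (u + 1)) ≤ u * (u * (u + 1)) :=
        Nat.mul_le_mul_right _ hcon
      have h7 : (t + 1) * (u + 1) ≤ u * (u + 1) := Nat.mul_le_mul_right _ h2
      nlinarith
    omega
  refine ⟨s + 2 * Δ, t, by omega, ⟨by omega, hj, by omega⟩, h3, by omega, fun n hn => ?_⟩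
  rw [h1]
  exact flatten h𝓘 hj Δ hn

/-- From a block with a deficit in its top row to a balanced shape. -/
theorem good_blk (h𝓘 : Stable 𝓘) {s u T e S : ℕ} (hs : 0 < s) (hu : 0 < u) (he : e < T)
    (hS : s * u * (u + 1) + 2 * (u + 1) * T = S + 2 * e) (hFR : u * (u + 1) * (u + 2) ≤ S) :
    ∃ s' u' t' j', 0 < s' ∧ Good s' u' t' j' ∧ sz s' u' t' j' = S ∧ s' % 2 = s % 2 ∧ u ≤ u' + 1 ∧
      (e = 0 ∨ u < T - e → u ≤ u') ∧ ∀ n, RkS 𝓘 (↑(Lfin s' u' t' j') : Set (ℕ × ℕ)) n →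
        RkS 𝓘 (↑(blk s u T e) : Set (ℕ × ℕ)) n := by
  have : Infinite K := infK
  obtain ⟨Δ, hΔ⟩ : ∃ Δ, Δ = e / (u + 1) := ⟨_, rfl⟩
  obtain ⟨e₁, he₁⟩ : ∃ e₁, e₁ = e % (u + 1) := ⟨_, rfl⟩
  have h1 : e = e₁ + Δ * (u + 1) := by
    rw [hΔ, he₁, mul_comm]
    exact (Nat.mod_add_div e (u + 1)).symm
  have h2 : e₁ ≤ u := by
    rw [he₁]
    exact Nat.lt_succ_iff.1 (Nat.mod_lt _ (by omega))
  obtain ⟨T₁, hT₁⟩ : ∃ T₁, T = T₁ + Δ * (u + 1) := ⟨T - Δ * (u + 1), by omega⟩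
  have he1 : e₁ < T₁ := by omega
  have hS1 : (s + 2 * Δ) * u * (u + 1) + 2 * (u + 1) * T₁ = S + 2 * e₁ := by
    have h3 : (s + 2 * Δ) * u * (u + 1) + 2 * (u + 1) * T₁ + 2 * (Δ * (u + 1)) =
        s * u * (u + 1) + 2 * (u + 1) * (T₁ + Δ * (u + 1)) := by ring
    rw [← hT₁, hS, h1] at h3
    omega
  have hA : ∀ n, RkS 𝓘 (↑(blk (s + 2 * Δ) u T₁ e₁) : Set (ℕ × ℕ)) n →
      RkS 𝓘 (↑(blk s u T e) : Set (ℕ × ℕ)) n := by
    intro n hn
    rw [h1, hT₁]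
    exact RkS.compressY h𝓘 (s + Δ) u (hKz u) (step_A le_rfl he1.le) hn
  obtain ⟨s₁, hs₁⟩ : ∃ s₁, s₁ = s + 2 * Δ := ⟨_, rfl⟩
  rw [← hs₁] at hS1 hA
  rcases Nat.eq_zero_or_pos e₁ with h0 | h0
  · subst h0
    obtain ⟨s', t', g1, g2, g3, g4, g5⟩ := good_flat (T := T₁) (j := 0) h𝓘 (s := s₁) (by omega) hu
      (by omega) (by omega) hFR
    refine ⟨s', u, t', 0, g1, g2, g3, by omega, by omega, fun _ => le_rfl, fun n hn => hA n ?_⟩
    rw [blk_zero]
    exact g5 n hn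
  · rcases Nat.lt_or_ge u T₁ with h3 | h3
    · obtain ⟨T₂, hT₂⟩ : ∃ T₂, T₁ = T₂ + u + 1 := ⟨T₁ - u - 1, by omega⟩
      have hS2 : (s₁ + 2) * u * (u + 1) + 2 * (u + 1) * T₂ + 2 * (u + 1 - e₁) = S := by
        have e4 : (s₁ + 2) * u * (u + 1) + 2 * (u + 1) * T₂ + 2 * (u + 1) =
            s₁ * u * (u + 1) + 2 * (u + 1) * (T₂ + u + 1) := by ring
        rw [← hT₂, hS1] at e4
        omega
      obtain ⟨s', t', g1, g2, g3, g4, g5⟩ := good_flat (T := T₂) (j := u + 1 - e₁) h𝓘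
        (s := s₁ + 2) (by omega) hu (by omega) hS2 hFR
      refine ⟨s', u, t', u + 1 - e₁, g1, g2, g3, by omega, by omega, fun _ => le_rfl,
        fun n hn => hA n ?_⟩
      rw [hT₂]
      refine RkS.compressY h𝓘 (s₁ + 1) u (hKz u) (step_B le_rfl h2) ?_
      exact RkS.compressY h𝓘 (s₁ + 2) u (hKz u) (step_sort le_rfl le_rfl) (g5 n hn)
    · obtain ⟨v, rfl⟩ : ∃ v, u = v + 1 := ⟨u - 1, by omega⟩
      have hsv : v + 2 ≤ s₁ := by
        by_contra hcon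
        push Not at hcon
        have h5 : s₁ * (v + 1) * (v + 1 + 1) + 2 * (v + 1 + 1) * T₁ <
            (v + 1) * (v + 1 + 1) * (v + 1 + 2) + 2 * e₁ := by
          have h6 : s₁ * ((v + 1) * (v + 1 + 1)) ≤ (v + 1) * ((v + 1) * (v + 1 + 1)) :=
            Nat.mul_le_mul_right _ (by omega)
          have h7 : 2 * (v + 1 + 1) * T₁ ≤ 2 * (v + 1 + 1) * (v + 1) :=
            Nat.mul_le_mul_left _ h3
          nlinarith
        omega
      obtain ⟨t, ht⟩ : ∃ t, s₁ + T₁ = t + v := ⟨s₁ + T₁ - v, by omega⟩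
      refine ⟨s₁ + 2, v, t, T₁ - e₁, by omega, ⟨by omega, by omega, by omega⟩, ?_, by omega,
        by omega, fun h => ?_, fun n hn => hA n ?_⟩
      · unfold sz
        have e5 : (s₁ + 2) * v * (v + 1) + 2 * (v + 1) * t + 2 * T₁ + 2 * (v + 1) * v =
            (s₁ + 2) * v * (v + 1) + 2 * (v + 1) * (t + v) + 2 * T₁ := by ring
        rw [← ht] at e5
        have e6 : (s₁ + 2) * v * (v + 1) + 2 * (v + 1) * (s₁ + T₁) + 2 * T₁ =
            s₁ * (v + 1) * (v + 1 + 1) + 2 * (v + 1 + 1) * T₁ + 2 * (v + 1) * v := by ring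
        rw [e6, hS1] at e5
        omega
      · rcases h with h | h
        · have h6 : Δ * (v + 1 + 1) = 0 := by omega
          omega
        · exfalso
          omega
      · refine RkS.compressY h𝓘 (s₁ + 1) (v + 1) (hKz (v + 1))
          (step_B' le_rfl he1.le h3 ht.symm) ?_
        exact RkS.compressY h𝓘 (s₁ + 2) (v + 1) (hKz (v + 1))
          (step_sort (by omega) (by omega)) hn

/-- The size identity. -/
theorem triag_id {M k δ κ r f : ℕ} (hk : k + 1 = δ * κ + r) (hf : δ = r + f) :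
    δ * δ * κ * (κ + 1) + 2 * (κ + 1) * (δ * (M + r)) + 2 * cc f =
      (k + 1) * (k + 2 * M + 2) + 2 * (κ + 1) * cc δ + 2 * (f * M) := by
  have e1 : k + 2 * M + 2 = δ * κ + r + 2 * M + 1 := by omega
  rw [e1, hk]
  have h1 := cc_two f
  have h2 := cc_two δ
  zify at h1 h2 hf ⊢
  have h3 : (r : ℤ) = δ - f := by rw [hf]; ring
  rw [h3]
  linear_combination h1 - (κ + 1 : ℤ) * h2

theorem fr_sz {s u t j S : ℕ} (hsz : sz s u t j = S) (ht : t < s) (hj : j ≤ u + 1)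
    (hFR : u * (u + 1) * (u + 2) ≤ S) : u ≤ s + 2 := by
  by_contra hcon
  push Not at hcon
  have h5 : sz s u t j < u * (u + 1) * (u + 2) := by
    unfold sz
    have h6 : (s + 2 + 1) * (u * (u + 1)) ≤ u * (u * (u + 1)) := Nat.mul_le_mul_right _ hcon
    have h7 : (t + 1) * (u + 1) ≤ u * (u + 1) := Nat.mul_le_mul_right _ (by omega)
    nlinarith
  omega

theorem excess {D C κ g Y V S : ℕ} (hg : g < D) (hC : C < D) (hκ : 1 ≤ κ) (hY : Y ≤ κ)
    (hCg : C ≤ g + Y) (hV : D * κ + g = C + V)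
    (hS : D * κ * (κ + 1) + 2 * (κ + 1) * g + 2 * Y = S + 2 * (κ + 1) * C)
    (hFR : κ * (κ + 1) * (κ + 2) ≤ S) :
    ∃ u t j, Good D u t j ∧ sz D u t j = S ∧ κ ≤ u + 1 ∧
      (↑(Lfin D u t j) : Set (ℕ × ℕ)) = Lset D V (Y - (C - g)) := by
  rcases Nat.lt_or_ge g C with h1 | h1
  · obtain ⟨y, hy⟩ : ∃ y, C = g + y := Nat.exists_eq_add_of_le h1.le
    obtain ⟨u, rfl⟩ : ∃ u, κ = u + 1 := ⟨κ - 1, by omega⟩
    obtain ⟨t, ht⟩ : ∃ t, D = t + y := ⟨D - y, by omega⟩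
    obtain ⟨j, hj⟩ : ∃ j, Y = j + y := ⟨Y - y, by omega⟩
    have hsz : sz D u t j = S := by
      unfold sz
      subst hj hy
      have e1 : D * (u + 1) * (u + 1 + 1) = D * u * (u + 1) + 2 * (u + 1) * D := by ring
      have e2 : 2 * (u + 1) * D = 2 * (u + 1) * t + 2 * (u + 1) * y := by rw [ht]; ring
      have e3 : 2 * (u + 1 + 1) * (g + y) = 2 * (u + 1 + 1) * g + (2 * (u + 1) * y + 2 * y) := by
        ring
      rw [e1, e2, e3] at hS
      omega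
    have htD : t < D := by omega
    have hju : j ≤ u + 1 := by omega
    refine ⟨u, t, j, ⟨htD, hju, fr_sz hsz htD hju (le_trans ?_ hFR)⟩, hsz, le_rfl, ?_⟩
    · exact Nat.mul_le_mul (Nat.mul_le_mul (by omega) (by omega)) (by omega)
    · rw [coe_Lfin htD hju]
      have e7 : Y - (C - g) = j := by omega
      have e8 : D * (u + 1) = D * u + D := by ring
      have e9 : D * u + t = V := by omega
      rw [e7, e9]
  · obtain ⟨t, ht⟩ : ∃ t, g = C + t := Nat.exists_eq_add_of_le h1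
    have hsz : sz D κ t Y = S := by
      unfold sz
      have e5 : 2 * (κ + 1) * (C + t) = 2 * (κ + 1) * C + 2 * (κ + 1) * t := by ring
      rw [ht, e5] at hS
      omega
    have htD : t < D := by omega
    have hju : Y ≤ κ + 1 := by omega
    refine ⟨κ, t, Y, ⟨htD, hju, fr_sz hsz htD hju hFR⟩, hsz, by omega, ?_⟩
    rw [coe_Lfin htD hju]
    have e7 : Y - (C - g) = Y := by omega
    have e9 : D * κ + t = V := by omega
    rw [e7, e9]

/-- The first three compressions. -/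
theorem trap_three (h𝓘 : Stable 𝓘) {M k δ : ℕ} (hδ : 0 < δ) {S : Set (ℕ × ℕ)}
    (hS : ∀ i q, ((i, q) : ℕ × ℕ) ∈ S → i < cntT δ M k q) (hn : RkS 𝓘 S n) :
    RkS 𝓘 (trapS M k) n := by
  have : Infinite K := infK
  obtain ⟨B, hB⟩ : ∃ B, B = δ * (M + k) + M + k := ⟨_, rfl⟩
  refine RkS.compressX h𝓘 B (hKz B) (step_0 (by omega)) ?_
  refine RkS.compressY h𝓘 δ B (hKz B) (step_1 hδ (by omega)) ?_
  exact RkS.compressX h𝓘 B (hKz B) (step_2 hδ (by omega) hS) hn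

theorem sq_mod_two (δ : ℕ) : (δ * δ) % 2 = δ % 2 := by
  rcases Nat.mod_two_eq_zero_or_one δ with h | h <;> simp [Nat.mul_mod, h]

/-- The deficit case. -/
theorem start_def (h𝓘 : Stable 𝓘) {M k δ κ r f e : ℕ} (hδ : 0 < δ) (hκ1 : 1 ≤ κ)
    (hr0 : 0 < r) (hf : δ = r + f) (hk : k + 1 = δ * κ + r)
    (hFR : κ * (κ + 1) * (κ + 2) ≤ (k + 1) * (k + 2 * M + 2)) (he : f * M = cc f + e) :
    ∃ s u t j, 0 < s ∧ Good s u t j ∧ sz s u t j = (k + 1) * (k + 2 * M + 2) ∧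
      s % 2 = δ % 2 ∧ κ ≤ u + 1 ∧ (f = 0 → κ ≤ u) ∧
      ∀ n, RkS 𝓘 (↑(Lfin s u t j) : Set (ℕ × ℕ)) n → RkS 𝓘 (trapS M k) n := by
  have hrδ : r ≤ δ := by omega
  have hδδ : 0 < δ * δ := Nat.mul_pos hδ hδ
  have hS0 := triag_id (M := M) hk hf
  have hadd := cc_add r f
  rw [← hf] at hadd
  have hrr : r * (M + r) = r * M + cc r + (cc r + r) := by
    have h1 := cc_two r
    have h2 : r * (M + r) = r * M + r * r := by ring
    omega
  have hδr : δ * (M + r) = r * (M + r) + f * M + f * r := by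
    rw [hf]
    ring
  obtain ⟨T, hT⟩ : ∃ T, T = r * M + cc r + r + e := ⟨_, rfl⟩
  have hδT : δ * (M + r) = cc δ + T := by omega
  have hS1 : δ * δ * κ * (κ + 1) + 2 * (κ + 1) * T = (k + 1) * (k + 2 * M + 2) + 2 * e := by
    have e5 : 2 * (κ + 1) * (cc δ + T) = 2 * (κ + 1) * cc δ + 2 * (κ + 1) * T := by ring
    rw [hδT, e5, he] at hS0
    omega
  obtain ⟨s', u', t', j', g1, g2, g3, g4, g5, g5', g6⟩ := good_blk h𝓘 hδδ hκ1 (T := T) (e := e)
    (by omega) hS1 hFR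
  refine ⟨s', u', t', j', g1, g2, g3, g4.trans (sq_mod_two δ), g5, fun h0 => g5' (Or.inl ?_),
    fun n hn => ?_⟩
  · rw [h0, Nat.zero_mul] at he
    omega
  refine trap_three h𝓘 hδ (fun i q hp => ?_) (g6 n hn)
  rw [Finset.mem_coe, blk, mem_rowsF] at hp
  obtain ⟨hq, hi⟩ := hp
  obtain ⟨w, hw⟩ : ∃ w, κ = q + w := Nat.exists_eq_add_of_le (by omega)
  rcases Nat.eq_zero_or_pos w with h0 | h0
  · have h1 : q = κ := by omega
    subst h1
    have htop := cntT_top (M := M) hrδ hr0 hk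
    rw [if_pos rfl] at hi
    omega
  · have h1 := cntT_low (M := M) hrδ hr0 hk hw h0
    rw [if_neg (by omega)] at hi
    have e3 : κ - q = w := by omega
    rw [e3] at hi
    omega

/-- The excess case. -/
theorem start_exc (h𝓘 : Stable 𝓘) {M k δ κ r f Y : ℕ} (hδ : 0 < δ) (hκ1 : 1 ≤ κ)
    (hr0 : 0 < r) (hf : δ = r + f) (hk : k + 1 = δ * κ + r) (hMf : M < f)
    (hFR : κ * (κ + 1) * (κ + 2) ≤ (k + 1) * (k + 2 * M + 2)) (hY : cc f = f * M + Y)
    (hYκ : Y ≤ κ) :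
    ∃ s u t j, 0 < s ∧ Good s u t j ∧ sz s u t j = (k + 1) * (k + 2 * M + 2) ∧
      s % 2 = δ % 2 ∧ κ ≤ u + 1 ∧
      ∀ n, RkS 𝓘 (↑(Lfin s u t j) : Set (ℕ × ℕ)) n → RkS 𝓘 (trapS M k) n := by
  have : Infinite K := infK
  have hrδ : r ≤ δ := by omega
  have hδδ : 0 < δ * δ := Nat.mul_pos hδ hδ
  have hS0 := triag_id (M := M) hk hf
  have hadd := cc_add r f
  rw [← hf] at hadd
  have hrr : r * (M + r) = r * M + cc r + (cc r + r) := by
    have h1 := cc_two r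
    have h2 : r * (M + r) = r * M + r * r := by ring
    omega
  have hδr : δ * (M + r) = r * (M + r) + f * M + f * r := by
    rw [hf]
    ring
  obtain ⟨g, hg⟩ : ∃ g, g = δ * (M + r) := ⟨_, rfl⟩
  have hgs : g < δ * δ := by
    rw [hg]
    exact Nat.mul_lt_mul_of_pos_left (by omega) hδ
  have hcδ : cc δ < δ * δ := by
    have := cc_two δ
    omega
  rw [← hg] at hδr hS0
  have hV0 : cc δ ≤ δ * δ * κ + g := by
    have : δ * δ * 1 ≤ δ * δ * κ := Nat.mul_le_mul_left _ hκ1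
    omega
  obtain ⟨V, hV⟩ : ∃ V, δ * δ * κ + g = cc δ + V := Nat.exists_eq_add_of_le hV0
  obtain ⟨u, t, j, h1, h2, h3, h4⟩ := excess (D := δ * δ) (C := cc δ) (κ := κ) (g := g) (Y := Y)
    (V := V) (S := (k + 1) * (k + 2 * M + 2)) hgs hcδ hκ1 hYκ (by omega) hV (by
      rw [hY] at hS0
      omega) hFR
  refine ⟨δ * δ, u, t, j, hδδ, h1, h2, sq_mod_two δ, h3, fun n hn => ?_⟩
  rw [h4] at hn
  refine trap_three h𝓘 hδ (S := Dset (δ * δ) (δ * δ * κ + g) (cc δ) κ Y) (fun i q hp => ?_) ?_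
  · rw [mem_Dset] at hp
    obtain ⟨hq, hi⟩ := hp
    obtain ⟨w, hw⟩ := Nat.exists_eq_add_of_le hq
    rcases Nat.eq_zero_or_pos w with h0 | h0
    · have h5 : q = κ := by omega
      subst h5
      have htop := cntT_top (M := M) hrδ hr0 hk
      rw [if_pos rfl] at hi
      omega
    · have h5 := cntT_low (M := M) hrδ hr0 hk hw h0
      rw [if_neg (by omega)] at hi
      have e3 : δ * δ * κ = δ * δ * q + δ * δ * w := by rw [hw]; ring
      omega
  · obtain ⟨σ, hσ⟩ : ∃ σ, δ * δ = σ + 1 := ⟨δ * δ - 1, by omega⟩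
    rw [hσ] at hV hgs hcδ hn ⊢
    refine RkS.compressY h𝓘 σ κ (hKz κ) (step_E (g := g) rfl le_rfl) ?_
    exact RkS.compressY h𝓘 (σ + 1) κ (hKz κ) (step_L (V := V) (by omega) rfl
      (by omega) (by omega) hYκ le_rfl) hn

/-- From balanced shapes of the parity of `δ` to the triangle without a corner. -/
theorem start_trap (h𝓘 : Stable 𝓘) {M k δ : ℕ} (hδ : 0 < δ) (hδk : δ ≤ k)
    (hFR : k / δ * (k / δ + 1) * (k / δ + 2) ≤ (k + 1) * (k + 2 * M + 2))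
    (hEX : δ * ((δ - 1) * (δ - 2)) ≤ 2 * k) :
    ∃ s u t j, 0 < s ∧ Good s u t j ∧ sz s u t j = (k + 1) * (k + 2 * M + 2) ∧
      s % 2 = δ % 2 ∧ k / δ ≤ u + 1 ∧ (δ ∣ k + 1 → k / δ ≤ u) ∧
      ∀ n, RkS 𝓘 (↑(Lfin s u t j) : Set (ℕ × ℕ)) n → RkS 𝓘 (trapS M k) n := by
  obtain ⟨κ, hκ⟩ : ∃ κ, κ = k / δ := ⟨_, rfl⟩
  rw [← hκ] at hFR ⊢
  have hκ1 : 1 ≤ κ := by
    rw [hκ]
    exact (Nat.one_le_div_iff hδ).2 hδk
  have hdm := Nat.div_add_mod k δ
  have hml := Nat.mod_lt k hδ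
  rw [← hκ] at hdm
  obtain ⟨r, hr⟩ : ∃ r, r = k % δ + 1 := ⟨_, rfl⟩
  have hr0 : 0 < r := by omega
  have hk : k + 1 = δ * κ + r := by omega
  obtain ⟨f, hf⟩ : ∃ f, δ = r + f := Nat.exists_eq_add_of_le (by omega)
  rcases Nat.lt_or_ge (f * M) (cc f) with hex | hex
  · have hccf := cc_two f
    have hf1 : M < f := by
      by_contra hcon
      push Not at hcon
      have h1 : f * f ≤ f * M := Nat.mul_le_mul_left _ hcon
      omega
    obtain ⟨Y, hY⟩ : ∃ Y, cc f = f * M + Y := Nat.exists_eq_add_of_le hex.le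
    have hYκ : Y ≤ κ := by
      have h1 : cc f ≤ cc (δ - 1) := by
        unfold cc
        exact Finset.sum_le_sum_of_subset (Finset.range_mono (by omega))
      have h2 := cc_two (δ - 1)
      obtain ⟨a, ha⟩ : ∃ a, δ = a + 2 := ⟨δ - 2, by omega⟩
      have e1 : δ - 1 = a + 1 := by omega
      have e2 : δ - 2 = a := by omega
      rw [e1, e2] at hEX
      rw [e1] at h1 h2
      have e3 : (a + 1) * (a + 1) = (a + 1) * a + (a + 1) := by ring
      have h3 : 2 * cc (a + 1) = (a + 1) * a := by omega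
      have h4 : δ * (2 * Y) ≤ 2 * k := by
        refine le_trans (Nat.mul_le_mul_left _ ?_) hEX
        omega
      rw [hκ, Nat.le_div_iff_mul_le hδ]
      have h5 : δ * (2 * Y) = 2 * (Y * δ) := by ring
      omega
    obtain ⟨s', u', t', j', g1, g2, g3, g4, g5, g6⟩ :=
      start_exc h𝓘 hδ hκ1 hr0 hf hk hf1 hFR hY hYκ
    refine ⟨s', u', t', j', g1, g2, g3, g4, g5, fun h => ?_, g6⟩
    exfalso
    rw [hk, Nat.dvd_add_right (Dvd.intro _ rfl)] at h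
    have := Nat.le_of_dvd hr0 h
    omega
  · obtain ⟨e, he⟩ : ∃ e, f * M = cc f + e := Nat.exists_eq_add_of_le hex
    obtain ⟨s', u', t', j', g1, g2, g3, g4, g5, g5', g6⟩ :=
      start_def h𝓘 hδ hκ1 hr0 hf hk hFR he
    refine ⟨s', u', t', j', g1, g2, g3, g4, g5, fun h => g5' ?_, g6⟩
    rw [hk, Nat.dvd_add_right (Dvd.intro _ rfl)] at h
    have := Nat.le_of_dvd hr0 h
    omega

end Pool.Agent.W609
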