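import Mathlib
import Pool.Agent.W609.Start

set_option autoImplicit false

/-!
# The choice of the slope for the triangle without a corner
-/

namespace Pool.Agent.W609

open Polynomial Pool.Agent.H932R2 Pool.Agent.H932R3

/-- The arithmetic of three consecutive factors. -/
theorem three_mono {a b : ℕ} (h : a ≤ b) : a * (a + 1) * (a + 2) ≤ b * (b + 1) * (b + 2) :=
  Nat.mul_le_mul (Nat.mul_le_mul h (by omega)) (by omega)

theorem sel_small {a x : ℕ} (ha : 0 < a) (hx : 15 ≤ x) (h : a * a ≤ x + 2) :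
    (a + 1) * (a + 2) ≤ 2 * x := by
  rcases Nat.lt_or_ge a 5 with h1 | h1
  · interval_cases a <;> omega
  · nlinarith

/-- The choice of the slope. -/
theorem exists_delta {M k m : ℕ} (hm : 0 < m) (hk : 2 * m + 1 ≤ k)
    (hbig : 27 * (m + 4) ^ 3 ≤ (k + 1) * (k + 2 * M + 2)) (c : ℕ) :
    ∃ δ, 0 < δ ∧ δ % 2 = c % 2 ∧ δ ≤ k ∧
      k / δ * (k / δ + 1) * (k / δ + 2) ≤ (k + 1) * (k + 2 * M + 2) ∧
      δ * ((δ - 1) * (δ - 2)) ≤ 2 * k ∧ (m + 1 ≤ k / δ ∨ (m ≤ k / δ ∧ δ ∣ k + 1)) := by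
  classical
  obtain ⟨p, hp1, hp2, hpc⟩ : ∃ p, 1 ≤ p ∧ p ≤ 2 ∧ p % 2 = c % 2 := by
    rcases Nat.mod_two_eq_zero_or_one c with h | h
    · exact ⟨2, by omega, by omega, by omega⟩
    · exact ⟨1, by omega, by omega, by omega⟩
  obtain ⟨X, hX⟩ : ∃ X, X = (k + 1) * (k + 2 * M + 2) := ⟨_, rfl⟩
  rw [← hX] at hbig ⊢
  have hex : ∃ a, k / (2 * a + p) * (k / (2 * a + p) + 1) * (k / (2 * a + p) + 2) ≤ X := by
    refine ⟨k, ?_⟩
    rw [Nat.div_eq_of_lt (by omega)]
    omega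
  have hs := Nat.find_spec hex
  have hmin := fun a => Nat.find_min hex (m := a)
  obtain ⟨a, ha⟩ : ∃ a, a = Nat.find hex := ⟨_, rfl⟩
  rw [← ha] at hs hmin
  have hpar : (2 * a + p) % 2 = c % 2 := by omega
  rcases Nat.eq_zero_or_pos a with h0 | h0
  · rw [h0, Nat.mul_zero, Nat.zero_add] at hs
    refine ⟨p, hp1, hpc, by omega, hs, ?_, ?_⟩
    · have h1 : (p - 1) * (p - 2) = 0 := by
        have : p - 2 = 0 := by omega
        rw [this, Nat.mul_zero]
      rw [h1, Nat.mul_zero]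
      omega
    · rcases (by omega : p = 1 ∨ p = 2) with rfl | rfl
      · left
        rw [Nat.div_one]
        omega
      · rcases (by omega : k = 2 * m + 1 ∨ 2 * m + 2 ≤ k) with h1 | h1
        · right
          refine ⟨by omega, ?_⟩
          rw [h1]
          exact ⟨m + 1, by ring⟩
        · left
          omega
  · have hf := hmin (a - 1) (by omega)
    rw [not_le] at hf
    obtain ⟨b, hb⟩ : ∃ b, b = 2 * (a - 1) + p := ⟨_, rfl⟩
    obtain ⟨x, hx⟩ : ∃ x, x = k / b := ⟨_, rfl⟩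
    rw [← hb, ← hx] at hf
    have hab : 2 * a + p = b + 2 := by omega
    have hb0 : 0 < b := by omega
    rw [hab] at hs hpar
    have hx15 : 3 * m + 12 ≤ x := by
      by_contra hcon
      have h1 := three_mono (a := x) (b := 3 * m + 11) (by omega)
      have h2 : (3 * m + 11) * (3 * m + 11 + 1) * (3 * m + 11 + 2) ≤ 27 * (m + 4) ^ 3 := by
        nlinarith
      omega
    have hbx : b * x ≤ k := by
      rw [hx]
      exact Nat.mul_div_le k b
    have hX1 : (b * x + 1) * (b * x + 2) ≤ X := by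
      rw [hX]
      exact Nat.mul_le_mul (by omega) (by omega)
    have hbb : b * b ≤ x + 2 := by
      by_contra hcon
      have h1 : x + 3 ≤ b * b := by omega
      have h2 : (x + 3) * (x * x) ≤ b * b * (x * x) := Nat.mul_le_mul_right _ h1
      have h3 : 1 * x ≤ b * x := Nat.mul_le_mul_right _ hb0
      nlinarith
    have hsm := sel_small hb0 (by omega) hbb
    have hkb : m + 1 ≤ k / (b + 2) := by
      rw [Nat.le_div_iff_mul_le (by omega)]
      have h1 : (m + 1) * (b + 2) ≤ (m + 1) * (3 * b) := Nat.mul_le_mul_left _ (by omega)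
      have h2 : b * (3 * m + 12) ≤ b * x := Nat.mul_le_mul_left _ hx15
      nlinarith
    refine ⟨b + 2, by omega, hpar, ?_, hs, ?_, Or.inl hkb⟩
    · by_contra hcon
      rw [Nat.div_eq_of_lt (by omega)] at hkb
      omega
    · have e1 : b + 2 - 1 = b + 1 := by omega
      have e2 : b + 2 - 2 = b := by omega
      rw [e1, e2]
      have h1 : b * ((b + 1) * (b + 2)) ≤ b * (2 * x) := Nat.mul_le_mul_left _ hsm
      nlinarith

/-- A finite set of monomials which can be reached from a balanced shape of either parity and of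
height at least `m`. -/
def StartOK (K : Type) [Field K] (S : Finset (ℕ × ℕ)) (m : ℕ) : Prop :=
  ∀ 𝓘 : Set (Ideal K[X][X]), Stable 𝓘 → ∀ c : ℕ, ∃ r u t j : ℕ, 0 < r ∧ Good r u t j ∧
    sz r u t j = 2 * S.card ∧ r * (m * (m + 1)) ≤ 2 * S.card ∧ r % 2 = c % 2 ∧
    ∀ X : ℕ, RkS 𝓘 (↑(Lfin r u t j) : Set (ℕ × ℕ)) X → RkS 𝓘 (↑S : Set (ℕ × ℕ)) X

/-- The monomials of degree at least `M` and at most `M + k`. -/
def trapF (M k : ℕ) : Finset (ℕ × ℕ) := (Tfin (M + k)).filter fun p => M ≤ p.1 + p.2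

theorem coe_trapF (M k : ℕ) : (↑(trapF M k) : Set (ℕ × ℕ)) = trapS M k := by
  ext ⟨i, l⟩
  unfold trapF
  rw [Finset.mem_coe, Finset.mem_filter]
  have h1 : ((i, l) : ℕ × ℕ) ∈ (↑(Tfin (M + k)) : Set (ℕ × ℕ)) ↔ i + l ≤ M + k := by
    rw [coe_Tfin, mem_Tset]
  rw [Finset.mem_coe] at h1
  rw [h1]
  unfold trapS
  exact ⟨fun h => ⟨h.2, h.1⟩, fun h => ⟨h.2, h.1⟩⟩

theorem card_trapF (M k : ℕ) : 2 * (trapF M k).card = (k + 1) * (k + 2 * M + 2) := by
  classical
  have h0 := Finset.card_filter_add_card_filter_not (s := Tfin (M + k))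
    (fun p : ℕ × ℕ => M ≤ p.1 + p.2)
  have h1 := card_Tfin (M + k)
  have h2 : 2 * ((Tfin (M + k)).filter fun p : ℕ × ℕ => ¬ M ≤ p.1 + p.2).card = M * (M + 1) := by
    rcases M with _ | M
    · rw [Finset.filter_eq_empty_iff.2 fun x _ => by simp]
      simp
    · have h3 : ((Tfin (M + 1 + k)).filter fun p : ℕ × ℕ => ¬ M + 1 ≤ p.1 + p.2) = Tfin M := by
        ext ⟨i, l⟩
        have h4 : ∀ d, ((i, l) : ℕ × ℕ) ∈ Tfin d ↔ i + l ≤ d := fun d => by
          have : ((i, l) : ℕ × ℕ) ∈ (↑(Tfin d) : Set (ℕ × ℕ)) ↔ i + l ≤ d := by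
            rw [coe_Tfin, mem_Tset]
          rwa [Finset.mem_coe] at this
        rw [Finset.mem_filter, h4, h4]
        omega
      rw [h3]
      have h4 := card_Tfin M
      linarith
  unfold trapF
  nlinarith

/-- The triangle without a corner can be reached. -/
theorem startOK_trap (K : Type) [Field K] [CharZero K] {M k m : ℕ} (hm : 0 < m)
    (hk : 2 * m + 1 ≤ k) (hbig : 27 * (m + 4) ^ 3 ≤ (k + 1) * (k + 2 * M + 2)) :
    StartOK K (trapF M k) m := by
  intro 𝓘 h𝓘 c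
  obtain ⟨δ, h1, h2, h3, h4, h5, h6⟩ := exists_delta hm hk hbig c
  obtain ⟨s, u, t, j, g1, g2, g3, g4, g5, g6, g7⟩ := start_trap h𝓘 h1 h3 h4 h5
  have hmu : m ≤ u := by
    rcases h6 with h6 | ⟨h6, h7⟩
    · omega
    · exact h6.trans (g6 h7)
  have hcard := card_trapF M k
  refine ⟨s, u, t, j, g1, g2, by rw [g3, hcard], ?_, g4.trans h2, fun X hX => ?_⟩
  · rw [hcard, ← g3]
    unfold sz
    have h8 : s * (m * (m + 1)) ≤ s * (u * (u + 1)) :=
      Nat.mul_le_mul_left _ (Nat.mul_le_mul hmu (by omega))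
    have h9 : s * (u * (u + 1)) = s * u * (u + 1) := by ring
    omega
  · rw [coe_trapF]
    exact g7 X hX

end Pool.Agent.W609
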