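import Mathlib
import Pool.Agent.W609.Big

set_option autoImplicit false

/-!
# Ranks away from the critical size, without condition on the parity of the slope
-/

namespace Pool.Agent.W609

open Polynomial Pool.Agent.H932R2 Pool.Agent.H932R3 Pool.Agent.H932R7

theorem t_ind : P_IND := T_IND T_STAB T_TRAP T_CARDS t_block T_SPLIT

theorem t_full : P_FULL := T_FULL T_STAB T_TRAP T_CARDS t_block T_SPLIT

theorem sz_tri (g m C : ℕ) (hC : 2 * C = m * (m + 1)) : sz g m 0 0 = 2 * (g * C) := by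
  unfold sz
  calc g * m * (m + 1) + _ = g * (m * (m + 1)) := by ring
    _ = 2 * (g * C) := by rw [← hC]; ring

/-- Ranks on a balanced shape, away from the critical size. -/
theorem nc_Lfin (K : Type) [Field K] [CharZero K] {m : ℕ} (hm : 0 < m) {ι : Type} [Fintype ι]
    {w : ι → ℕ} (hw : ∀ a, w a ≤ m) {N s u t j : ℕ} (hs : 0 < s) (hg : Good s u t j)
    (hsz : sz s u t j = 2 * N) (hsk : s * (m * (m + 1)) ≤ 2 * N) :
    (Aw w + (2 * (m + 1).choose 3 + (m + 1).choose 2) ≤ N →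
      RkS (PF K w) (↑(Lfin s u t j) : Set (ℕ × ℕ)) (Aw w)) ∧
    (N + (2 * (m + 1).choose 3 + (m + 1).choose 2) ≤ Aw w →
      RkS (PF K w) (↑(Lfin s u t j) : Set (ℕ × ℕ)) N) := by
  have hW := T_WST m hm
  have hC2 := R4h.two_choose m
  have hC0 : 0 < (m + 1).choose 2 := Nat.choose_pos (by omega)
  obtain ⟨C, hC⟩ : ∃ C, C = (m + 1).choose 2 := ⟨_, rfl⟩
  rw [← hC] at hC2 hC0 hW ⊢
  have hsC : s * C ≤ N := by
    rw [← hC2] at hsk
    have : s * (2 * C) = 2 * (s * C) := by ring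
    omega
  constructor
  · intro h
    obtain ⟨g₀, hg₀⟩ : ∃ g₀, g₀ = N / C := ⟨_, rfl⟩
    have hg1 : g₀ * C ≤ N := by rw [hg₀]; exact Nat.div_mul_le_self _ _
    have hg2 : N < g₀ * C + C := by
      rw [hg₀]
      exact Nat.lt_div_mul_add hC0
    have hsg : s ≤ g₀ := by
      rw [hg₀]
      exact (Nat.le_div_iff_mul_le hC0).2 hsC
    obtain ⟨κ, hκ⟩ : ∃ κ, κ = (g₀ - s) / 2 := ⟨_, rfl⟩
    obtain ⟨g, hgd⟩ : ∃ g, g = s + 2 * κ := ⟨_, rfl⟩
    have h1 : g ≤ g₀ := by omega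
    have h2 : g₀ ≤ g + 1 := by omega
    have h3 : g * C ≤ g₀ * C := Nat.mul_le_mul_right _ h1
    have h4 : g₀ * C ≤ g * C + C := by
      have := Nat.mul_le_mul_right C h2
      rwa [Nat.add_mul, Nat.one_mul] at this
    obtain ⟨u', t', j', ht', hj', hsz'⟩ := exists_param g N (by omega)
    have hind := t_ind K m ι w g hw (by rw [← hC]; omega)
    rw [MASTh.EE_eq_Lfin g m] at hind
    have hsub := Lfin_subset (s := g) (u := m) (t := 0) (j := 0) (u' := u') (t' := t')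
        (j' := j') (by omega) (by omega) ht' hj' (by
          rw [hsz', sz_tri g m C hC2]
          omega)
    have hmain : RkS (PF K w) (↑(Lfin g u' t' j') : Set (ℕ × ℕ)) (Aw w) :=
      RkS.mono (by exact_mod_cast hsub) hind
    rw [hgd] at hmain ht' hsz'
    exact T_CH K (PF K w) (T_STAB K ι w) s κ u t j u' t' j' _ hs hg ht' hj'
      (by rw [hsz', hsz]) hmain
  · intro h
    obtain ⟨g₀, hg₀⟩ : ∃ g₀, g₀ = (N + C - 1) / C := ⟨_, rfl⟩
    have hg1 : g₀ * C ≤ N + C - 1 := by rw [hg₀]; exact Nat.div_mul_le_self _ _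
    have hg2 : N ≤ g₀ * C := by
      have h1 := Nat.lt_div_mul_add (a := N + C - 1) hC0
      rw [← hg₀] at h1
      omega
    have hsg : s ≤ g₀ := by
      rw [hg₀]
      refine (Nat.le_div_iff_mul_le hC0).2 ?_
      omega
    obtain ⟨κ, hκ⟩ : ∃ κ, κ = (g₀ + 1 - s) / 2 := ⟨_, rfl⟩
    obtain ⟨g, hgd⟩ : ∃ g, g = s + 2 * κ := ⟨_, rfl⟩
    have h1 : g₀ ≤ g := by omega
    have h2 : g ≤ g₀ + 1 := by omega
    have h3 : g₀ * C ≤ g * C := Nat.mul_le_mul_right _ h1
    have h4 : g * C ≤ g₀ * C + C := by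
      have := Nat.mul_le_mul_right C h2
      rwa [Nat.add_mul, Nat.one_mul] at this
    obtain ⟨u', t', j', ht', hj', hsz'⟩ := exists_param g N (by omega)
    have hful := t_full K m ι w g hw (by rw [← hC]; omega)
    rw [MASTh.EE_eq_Lfin g m] at hful
    have hcardL' : (Lfin g u' t' j').card = N := by
      have := card_Lfin (s := g) (u := u') (t := t') (j := j') hj'
      omega
    have hsub := Lfin_subset (s := g) (u := u') (t := t') (j := j') (u' := m) (t' := 0)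
        (j' := 0) ht' hj' (by omega) (by omega) (by
          rw [hsz', sz_tri g m C hC2]
          omega)
    have hmain := RkS.subset hful hsub
    rw [hcardL'] at hmain
    rw [hgd] at hmain ht' hsz'
    exact T_CH K (PF K w) (T_STAB K ι w) s κ u t j u' t' j' _ hs hg ht' hj'
      (by rw [hsz', hsz]) hmain

/-- The choice of the slope, without condition on its parity. -/
theorem exists_delta_free {M k m : ℕ} (hm : 0 < m) (hk : m ≤ k)
    (hbig : 8 * (m + 2) ^ 3 ≤ (k + 1) * (k + 2 * M + 2)) :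
    ∃ δ, 0 < δ ∧ δ ≤ k ∧
      k / δ * (k / δ + 1) * (k / δ + 2) ≤ (k + 1) * (k + 2 * M + 2) ∧
      δ * ((δ - 1) * (δ - 2)) ≤ 2 * k ∧ (m + 1 ≤ k / δ ∨ (m ≤ k / δ ∧ δ ∣ k + 1)) := by
  classical
  obtain ⟨X, hX⟩ : ∃ X, X = (k + 1) * (k + 2 * M + 2) := ⟨_, rfl⟩
  rw [← hX] at hbig ⊢
  have hex : ∃ a, k / (a + 1) * (k / (a + 1) + 1) * (k / (a + 1) + 2) ≤ X := by
    refine ⟨k, ?_⟩
    rw [Nat.div_eq_of_lt (by omega)]
    omega
  have hs := Nat.find_spec hex
  have hmin := fun a => Nat.find_min hex (m := a)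
  obtain ⟨a, ha⟩ : ∃ a, a = Nat.find hex := ⟨_, rfl⟩
  rw [← ha] at hs hmin
  rcases Nat.eq_zero_or_pos a with h0 | h0
  · rw [h0, Nat.zero_add] at hs
    refine ⟨1, by omega, by omega, hs, by simp, ?_⟩
    right
    rw [Nat.div_one]
    exact ⟨hk, one_dvd _⟩
  · have hf := hmin (a - 1) (by omega)
    rw [not_le] at hf
    have e0 : a - 1 + 1 = a := by omega
    rw [e0] at hf
    obtain ⟨x, hx⟩ : ∃ x, x = k / a := ⟨_, rfl⟩
    rw [← hx] at hf
    have hx2 : 2 * m + 3 ≤ x := by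
      by_contra hcon
      have h1 := three_mono (a := x) (b := 2 * m + 2) (by omega)
      have h2 : (2 * m + 2) * (2 * m + 2 + 1) * (2 * m + 2 + 2) ≤ 8 * (m + 2) ^ 3 := by
        nlinarith
      omega
    have hax : a * x ≤ k := by
      rw [hx]
      exact Nat.mul_div_le k a
    have hX1 : (a * x + 1) * (a * x + 2) ≤ X := by
      rw [hX]
      exact Nat.mul_le_mul (by omega) (by omega)
    have haa : a * a ≤ x + 2 := by
      by_contra hcon
      have h1 : x + 3 ≤ a * a := by omega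
      have h2 : (x + 3) * (x * x) ≤ a * a * (x * x) := Nat.mul_le_mul_right _ h1
      have h3 : 1 * x ≤ a * x := Nat.mul_le_mul_right _ h0
      nlinarith
    have hka : m + 1 ≤ k / (a + 1) := by
      rw [Nat.le_div_iff_mul_le (by omega)]
      have h1 : (m + 1) * (a + 1) ≤ (m + 1) * (2 * a) := Nat.mul_le_mul_left _ (by omega)
      have h2 : a * (2 * m + 3) ≤ a * x := Nat.mul_le_mul_left _ hx2
      nlinarith
    refine ⟨a + 1, by omega, ?_, hs, ?_, Or.inl hka⟩
    · by_contra hcon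
      rw [Nat.div_eq_of_lt (by omega)] at hka
      omega
    · have e1 : a + 1 - 1 = a := by omega
      have e2 : a + 1 - 2 = a - 1 := by omega
      rw [e1, e2]
      obtain ⟨b, hb⟩ : ∃ b, a = b + 1 := ⟨a - 1, by omega⟩
      subst hb
      rw [Nat.add_sub_cancel]
      have h1 : (b + 1 + 1) * b ≤ 2 * x := by nlinarith
      have h2 : (b + 1) * ((b + 1 + 1) * b) ≤ (b + 1) * (2 * x) := Nat.mul_le_mul_left _ h1
      nlinarith

/-- Ranks on the triangle without a corner, away from the critical size. -/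
theorem nc_trap (K : Type) [Field K] [CharZero K] {m : ℕ} (hm : 0 < m) {ι : Type} [Fintype ι]
    {w : ι → ℕ} (hw : ∀ a, w a ≤ m) {M k : ℕ} (hk : m ≤ k)
    (hbig : 8 * (m + 2) ^ 3 ≤ (k + 1) * (k + 2 * M + 2)) :
    (Aw w + (2 * (m + 1).choose 3 + (m + 1).choose 2) ≤ (trapF M k).card →
      RkS (PF K w) (↑(trapF M k) : Set (ℕ × ℕ)) (Aw w)) ∧
    ((trapF M k).card + (2 * (m + 1).choose 3 + (m + 1).choose 2) ≤ Aw w →
      RkS (PF K w) (↑(trapF M k) : Set (ℕ × ℕ)) (trapF M k).card) := by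
  obtain ⟨δ, h1, h3, h4, h5, h6⟩ := exists_delta_free hm hk hbig
  obtain ⟨s, u, t, j, g1, g2, g3, g4, g5, g6, g7⟩ :=
    start_trap (T_STAB K ι w) h1 h3 h4 h5
  have hmu : m ≤ u := by
    rcases h6 with h6 | ⟨h6, h7⟩
    · omega
    · exact h6.trans (g6 h7)
  have hcard := card_trapF M k
  have h8 : s * (m * (m + 1)) ≤ s * (u * (u + 1)) :=
    Nat.mul_le_mul_left _ (Nat.mul_le_mul hmu (by omega))
  have h9 : s * (m * (m + 1)) ≤ 2 * (trapF M k).card := by
    rw [hcard, ← g3]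
    unfold sz
    have h9 : s * (u * (u + 1)) = s * u * (u + 1) := by ring
    omega
  have h10 := nc_Lfin K hm hw g1 g2 (by rw [g3, hcard]) h9
  rw [coe_trapF]
  exact ⟨fun h => g7 _ (h10.1 h), fun h => g7 _ (h10.2 h)⟩

/-- The multiplicities with one more point. -/
def ov {ι : Type} (M : ℕ) (w : ι → ℕ) : Option ι → ℕ := fun o => o.elim M w

theorem Aw_ov {ι : Type} [Fintype ι] (M : ℕ) (w : ι → ℕ) :
    Aw (ov M w) = (M + 1).choose 2 + Aw w := by
  unfold Aw
  rw [Fintype.sum_option]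
  rfl

/-- Adding a point of multiplicity `M`. -/
theorem big_ov {K : Type} [Field K] {ι : Type} {M k N : ℕ} {w : ι → ℕ}
    (h : RkS (PF K w) (↑(trapF M k) : Set (ℕ × ℕ)) N) :
    RkS (PF K (ov M w)) (Tset (M + k)) (N + (M + 1).choose 2) := by
  obtain ⟨J, ⟨c, γ, rfl⟩, hR⟩ := h
  refine ⟨_, ⟨fun o => o.elim 0 c, fun o => o.elim 0 γ, rfl⟩, ?_⟩
  rw [← coe_Tfin, T_RK]
  rw [T_RK] at hR
  have hle : mspan K (↑(Tfin (M + k)) : Set (ℕ × ℕ)) ⊓ Submodule.restrictScalars K
      (vIdeal 1 (ov M w) (fun o => o.elim 0 c) (fun o => o.elim 0 γ)) ≤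
      mspan K (↑(trapF M k) : Set (ℕ × ℕ)) ⊓ Submodule.restrictScalars K (vIdeal 1 w c γ) := by
    intro f hf
    rw [Submodule.mem_inf, Submodule.restrictScalars_mem] at hf ⊢
    rw [coe_Tfin] at hf
    obtain ⟨hf1, hf2⟩ := hf
    unfold vIdeal at hf2 ⊢
    rw [Ideal.mem_iInf] at hf2 ⊢
    exact ⟨mem_trap hf1 (hf2 none), fun a => hf2 (some a)⟩
  have hfin : Module.Finite K ↥(mspan K (↑(trapF M k) : Set (ℕ × ℕ))) := by
    refine Module.Finite.iff_fg.2 (Submodule.fg_span ?_)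
    exact ((trapF M k).finite_toSet).image _
  have hfin2 : Module.Finite K ↥(mspan K (↑(trapF M k) : Set (ℕ × ℕ)) ⊓
      Submodule.restrictScalars K (vIdeal 1 w c γ)) :=
    Submodule.finiteDimensional_of_le inf_le_left
  have h1 := Submodule.finrank_mono hle
  have h2 := card_trapF M k
  have h3 := card_Tfin (M + k)
  have h4 := R4h.two_choose M
  have h5 : (M + k + 1) * (M + k + 2) = (k + 1) * (k + 2 * M + 2) + M * (M + 1) := by ring
  omega

end Pool.Agent.W609
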