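import Mathlib
import Pool.Agent.W611.Near2
import Pool.Agent.W609.Nc

set_option autoImplicit false

/-!
# Placing the point of large multiplicity and some of the others in a corner
-/

namespace Pool.Agent.W609

open Polynomial Pool.Agent.H932R2 Pool.Agent.H932R3 Pool.Agent.H932R7
open Pool.Agent.W608 Pool.Agent.W611

theorem blk_sub_Phi (s u T e : ℕ) :
    (↑(blk s u T e) : Set (ℕ × ℕ)) ⊆ Phi s u (s * u + T) (T - e) := by
  rintro ⟨i, l⟩ hp
  rw [Finset.mem_coe, blk, mem_rowsF] at hp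
  rw [mem_Phi]
  obtain ⟨h1, h2⟩ := hp
  by_cases h : l = u
  · rw [if_pos h] at h2
    exact Or.inr ⟨h, h2⟩
  · rw [if_neg h] at h2
    left
    obtain ⟨v, hv⟩ : ∃ v, u = l + v := Nat.exists_eq_add_of_le (by omega)
    have e1 : u - l = v := by omega
    rw [e1] at h2
    refine ⟨by omega, ?_⟩
    have e2 : s * u = s * l + s * v := by rw [hv]; ring
    omega

/-- From a balanced shape of height at least `u` to the degree `d` monomials minus a part of a
corner which is unknown in one strip only. -/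
theorem start_hole {K : Type} [Field K] [CharZero K] {𝓘 : Set (Ideal K[X][X])} (h𝓘 : Stable 𝓘)
    {δ d u b : ℕ} {R : Finset (ℕ × ℕ)} (hδ : 0 < δ) (hu : 0 < u) (hd : d + 1 = δ * u + b)
    (hb : δ ≤ b) (hR : ∀ p ∈ R, δ * u ≤ p.1) (hR0 : Corner d (δ * (u + 1)) ⊆ R)
    (hX : 2 * R.card + 2 * (u + 1) ≤ b * (b + 1))
    (hFR : u * (u + 1) * (u + 2) + 2 * R.card ≤ (d + 1) * (d + 2)) :
    ∃ s u' t j, 0 < s ∧ Good s u' t j ∧ u ≤ u' ∧ s % 2 = δ % 2 ∧
      sz s u' t j + 2 * R.card = (d + 1) * (d + 2) ∧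
      ∀ n, RkS 𝓘 (↑(Lfin s u' t j) : Set (ℕ × ℕ)) n → RkS 𝓘 (Tset d \ (↑R : Set (ℕ × ℕ))) n := by
  have : Infinite K := infK
  have hcc := cc_two δ
  have hbδ : δ * δ ≤ δ * b := Nat.mul_le_mul_left _ hb
  have hδδ : 0 < δ * δ := Nat.mul_pos hδ hδ
  obtain ⟨t, htd⟩ : ∃ t, δ * b = t + cc δ := ⟨δ * b - cc δ, by omega⟩
  have hC := card_Corner hd
  obtain ⟨b', hb'⟩ : ∃ b', b = δ + b' := ⟨b - δ, by omega⟩
  have hC0 := card_Corner (d := d) (e := δ * (u + 1)) (b := b') (by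
    rw [hd, hb']
    ring)
  have hRc := Finset.card_le_card hR0
  obtain ⟨X, hXd⟩ : ∃ X, (Corner d (δ * u)).card = X + R.card :=
    ⟨(Corner d (δ * u)).card - R.card, by omega⟩
  obtain ⟨e, he⟩ : ∃ e, t = X + e := by
    refine ⟨t - X, ?_⟩
    have e1 : b * (b + 1) = 2 * (δ * b) - δ * δ + δ + b' * (b' + 1) := by
      rw [hb']
      zify [show δ * δ ≤ 2 * (δ * (δ + b')) by nlinarith]
      ring
    omega
  have hS : δ * δ * u * (u + 1) + 2 * (u + 1) * t =
      ((d + 1) * (d + 2) - 2 * R.card) + 2 * e := by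
    have e2 : 2 * X + 2 * R.card = b * (b + 1) := by omega
    have e3 : δ * δ * u * (u + 1) + 2 * u * t + b * (b + 1) = (d + 1) * (d + 2) := by
      rw [show d + 2 = (d + 1) + 1 from rfl, hd]
      zify at hcc htd ⊢
      have ht' : (t : ℤ) = δ * b - cc δ := by linarith
      rw [ht']
      linear_combination - (u : ℤ) * hcc
    have e4 : 2 * (u + 1) * t = 2 * u * t + 2 * t := by ring
    omega
  obtain ⟨s', u', t', j', g1, g2, g3, g4, g5, g5', g6⟩ := good_blk h𝓘 hδδ hu (T := t) (e := e)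
    (by omega) hS (by omega)
  refine ⟨s', u', t', j', g1, g2, g5' (Or.inr (by omega)), g4.trans (sq_mod_two δ), by omega,
    fun n hn => ?_⟩
  refine start_phi2 h𝓘 hδ hd (B := δ * d) le_rfl (hKz _) hR hR0 ?_
  have h1 := g6 n hn
  have e1 : δ * δ * u + δ * b - cc δ = δ * δ * u + t := by omega
  have e2 : (Corner d (δ * u)).card - R.card = t - e := by omega
  rw [e1, e2]
  exact RkS.mono (blk_sub_Phi _ _ _ _) h1

/-- Reindexing. -/
theorem ov_split {ι : Type} {M : ℕ} {w : ι → ℕ} {S : Finset ι} {T : Set (ℕ × ℕ)} {N : ℕ}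
    (h : RkS (PF ℚ (Sum.elim (ov M (fun a : {a // a ∈ S} => w a))
      (fun a : {a // a ∉ S} => w a))) T N) :
    RkS (PF ℚ (ov M w)) T N := by
  classical
  obtain ⟨_, ⟨c, γ, rfl⟩, hR⟩ := h
  refine ⟨_, ⟨fun o => o.elim (c (Sum.inl none)) (fun a => if h : a ∈ S then
      c (Sum.inl (some ⟨a, h⟩)) else c (Sum.inr ⟨a, h⟩)),
    fun o => o.elim (γ (Sum.inl none)) (fun a => if h : a ∈ S then
      γ (Sum.inl (some ⟨a, h⟩)) else γ (Sum.inr ⟨a, h⟩)), rfl⟩, hR.anti ?_⟩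
  unfold vIdeal
  refine le_iInf fun x => ?_
  rcases x with (_ | ⟨a, ha⟩) | ⟨a, ha⟩
  · exact iInf_le_of_le none le_rfl
  · refine iInf_le_of_le (some a) ?_
    simp only [Option.elim_some, dif_pos ha]
    exact le_rfl
  · refine iInf_le_of_le (some a) ?_
    simp only [Option.elim_some, dif_neg ha]
    exact le_rfl

theorem place3 {ι : Type} [Fintype ι] (M : ℕ) (w : ι → ℕ) (S : Finset ι) (d δ u b A : ℕ)
    (hδ : 0 < δ) (hu : 0 < u) (hd : d + 1 = δ * u + b) (hb : δ < b)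
    (hA : A = Aw (ov M (fun a : {a // a ∈ S} => w a)))
    (hind : RkS (PF ℚ (ov M (fun a : {a // a ∈ S} => w a))) (Tset (b - 1)) A)
    (hfull : RkS (PF ℚ (ov M (fun a : {a // a ∈ S} => w a))) (Tset (b - 1 - δ))
      (Tfin (b - 1 - δ)).card)
    (hX : 2 * A + 2 * (u + 1) ≤ b * (b + 1))
    (hFR : u * (u + 1) * (u + 2) + 2 * A ≤ (d + 1) * (d + 2)) (N : ℕ)
    (h : ∀ s u' t j, 0 < s → Good s u' t j → u ≤ u' → s % 2 = δ % 2 →
      sz s u' t j + 2 * A = (d + 1) * (d + 2) →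
        RkS (PF ℚ (fun a : {a // a ∉ S} => w a)) (↑(Lfin s u' t j) : Set (ℕ × ℕ)) N) :
    RkS (PF ℚ (ov M w)) (Tset d) (A + N) := by
  classical
  have hK : ∀ k : ℕ, 0 < k → (k : ℚ) ≠ 0 := fun k hk => Nat.cast_ne_zero.2 (by omega)
  have hst := T_STAB ℚ _ (ov M (fun a : {a // a ∈ S} => w a))
  have h1 : RkS (PF ℚ (ov M (fun a : {a // a ∈ S} => w a)))
      (↑(Corner d (δ * u)) : Set (ℕ × ℕ)) A :=
    RkS.compressX hst (d + 1) (fun k hk _ => hK k hk) (corner_dom (by omega) (by omega)) hind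
  have e1 : δ * (u + 1) = δ * u + δ := by ring
  have h2 : RkS (PF ℚ (ov M (fun a : {a // a ∈ S} => w a)))
      (↑(Corner d (δ * (u + 1))) : Set (ℕ × ℕ)) (Corner d (δ * (u + 1))).card := by
    have h3 := RkS.compressX hst (d + 1) (fun k hk _ => hK k hk)
      (corner_dom (d := d) (e := δ * (u + 1)) (by omega) (by omega)) hfull
    have h4 : (Corner d (δ * (u + 1))).card = (Tfin (b - 1 - δ)).card := by
      have h5 := card_Corner (d := d) (e := δ * (u + 1)) (b := b - δ) (by omega)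
      have h6 := card_Tfin (b - 1 - δ)
      have h7 : b - 1 - δ + 1 = b - δ := by omega
      have h8 : b - 1 - δ + 2 = b - δ + 1 := by omega
      rw [h7, h8] at h6
      omega
    rw [h4]
    exact h3
  have hsub : Corner d (δ * (u + 1)) ⊆ Corner d (δ * u) := by
    rintro ⟨i, l⟩ hp
    rw [mem_Corner] at hp ⊢
    omega
  rw [← coe_Tfin]
  refine ov_split (S := S) ?_
  rw [hA]
  refine comb2 _ _ (Tfin d) (Corner d (δ * u)) (Corner d (δ * (u + 1))) (d + 1)
    (Finset.filter_subset _ _) hsub ?_ corner_lt ?_ ?_ N ?_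
  · rintro ⟨i, l⟩ hx ⟨i', l'⟩ hx' hxx
    rw [coe_Tfin, mem_Tset] at hx hx'
    simp only at hxx
    have h1 : i = i' := by
      rcases Nat.lt_trichotomy i i' with h | h | h
      · have : (d + 1) * (i + 1) ≤ (d + 1) * i' := Nat.mul_le_mul_left _ h
        rw [Nat.mul_add] at this
        omega
      · exact h
      · have : (d + 1) * (i' + 1) ≤ (d + 1) * i := Nat.mul_le_mul_left _ h
        rw [Nat.mul_add] at this
        omega
    subst h1
    rw [Prod.mk.injEq]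
    exact ⟨rfl, by omega⟩
  · intro x hx
    exact corner_lt x ((Finset.filter_subset _ _) hx)
  · rw [← hA]
    exact common h1 h2
  · intro R hR hR0 hRc
    rw [← hA] at hRc
    obtain ⟨s, u', t, j, g1, g2, g3, g4, g5, g6⟩ := start_hole
      (T_STAB ℚ _ (fun a : {a // a ∉ S} => w a)) (R := R) hδ hu hd hb.le
      (fun p hp => (Finset.mem_filter.1 (hR hp)).2) hR0 (by rw [hRc]; exact hX)
      (by rw [hRc]; exact hFR)
    rw [coe_Tfin]
    rw [hRc] at g5
    exact g6 N (h s u' t j g1 g2 g3 g4 g5)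

end Pool.Agent.W609
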