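import Mathlib
import Pool.Agent.W609.Place

set_option autoImplicit false

/-!
# Exact ranks near the critical size, with one point of arbitrary multiplicity
-/

namespace Pool.Agent.W609

open Polynomial Pool.Agent.H932R2 Pool.Agent.H932R3 Pool.Agent.H932R7
open Pool.Agent.W608 Pool.Agent.W611

/-- The numerical facts about `m`. -/
theorem num_m {m W : ℕ} (hm : 0 < m) (hW : 3 * W + m = m * m * m) :
    4 * W + 4 * (m * (m + 1)) ≤ 2 * (m + 1) ^ 3 ∧
    3 * (m * (m + 1)) + 2 * W + 2 * (m + 1) ≤ 2 * (m + 1) ^ 3 ∧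
    2 * W + m * (m + 1) * (m + 7) ≤ 2 * (m + 1) ^ 4 ∧
    3 * (m * (m + 1)) + 2 * W ≤ (m + 1) ^ 4 ∧
    2 * (m * (m + 1)) + 2 * (m + 1) ≤ (m + 1) ^ 4 ∧
    m * (m + 1) * (m + 6) ≤ (m + 1) ^ 4 := by
  obtain ⟨p, rfl⟩ : ∃ p, m = p + 1 := ⟨m - 1, by omega⟩
  have h2 := Nat.zero_le (p * p)
  have h3 := Nat.zero_le (p * p * p)
  have h4 := Nat.zero_le (p * p * p * p)
  refine ⟨?_, ?_, ?_, ?_, ?_, ?_⟩ <;> nlinarith

/-- Exact ranks near the critical size. -/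
theorem rankN (k₀ m M : ℕ) (hk₀ : 0 < k₀) (hkm : k₀ ≤ m) (ι : Type) [Fintype ι] (w : ι → ℕ)
    (hw : ∀ a, w a ≤ m) (k δ x : ℕ) (hk : k = (m + 1) * δ + x) (hδ : 0 < δ) (hx : m ≤ x)
    (hC4 : 2 * (m + 1) ^ 3 ≤ δ * (2 * x + δ + 2 * M + 3))
    (hC3 : 2 * (m + 1) ^ 4 ≤ (x + δ + 1) * (x + δ + 2 * M + 2))
    (hC2 : 8 * (m + 2) ^ 3 ≤ (x + 1) * (x + 2 * M + 2))
    (htail : (∑ a, if w a < k₀ then w a * (w a + 1) else 0) ≤ (m + 1) ^ 4)
    (hN1 : (k + 1) * (k + 2 * M + 2) < 2 * Aw w + k₀ * (k₀ + 1))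
    (hN2 : 2 * Aw w < (k + 1) * (k + 2 * M + 2) + k₀ * (k₀ + 1))
    (hfr : m * (m + 1) * (m + 2) + k₀ * (k₀ + 1) ≤ Nat.card {a // w a = k₀} * (k₀ * (k₀ + 1))) :
    RkS (PF ℚ (ov M w)) (Tset (M + k)) (min ((M + k + 2).choose 2) (Aw (ov M w))) := by
  classical
  have hm : 0 < m := by omega
  obtain ⟨q, hq⟩ : ∃ q, q = k₀ * (k₀ + 1) := ⟨_, rfl⟩
  have hqm : q ≤ m * (m + 1) := by
    rw [hq]
    exact Nat.mul_le_mul hkm (by omega)
  have hq0 : 0 < q := by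
    rw [hq]
    positivity
  obtain ⟨c₀, hc₀⟩ : ∃ c₀, c₀ = (k₀ + 1).choose 2 := ⟨_, rfl⟩
  have hc₀2 : 2 * c₀ = q := by rw [hc₀, hq]; exact two_choose' k₀
  obtain ⟨c, hc⟩ : ∃ c, c = (m + 1).choose 2 := ⟨_, rfl⟩
  have hc2 : 2 * c = m * (m + 1) := by rw [hc]; exact two_choose' m
  have hc0 : 0 < c := by
    rw [hc]
    exact Nat.choose_pos (by omega)
  obtain ⟨W, hW⟩ : ∃ W, W = 2 * (m + 1).choose 3 := ⟨_, rfl⟩
  have hW3 : 3 * W + m = m * m * m := by rw [hW]; exact R4h.three_choose m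
  rw [← hq] at hN1 hN2 hfr
  obtain ⟨n1, n2, n3, n4, n5, n6⟩ := num_m hm hW3
  obtain ⟨P3, hP3⟩ : ∃ P3, P3 = (m + 1) ^ 3 := ⟨_, rfl⟩
  obtain ⟨P4, hP4⟩ : ∃ P4, P4 = (m + 1) ^ 4 := ⟨_, rfl⟩
  rw [← hP3] at n1 n2 hC4
  rw [← hP4] at n3 n4 n5 n6 hC3 htail
  -- the sizes
  obtain ⟨Nx, hNx⟩ : ∃ Nx, Nx = (trapF M x).card := ⟨_, rfl⟩
  have hNx2 : 2 * Nx = (x + 1) * (x + 2 * M + 2) := by rw [hNx]; exact card_trapF M x
  obtain ⟨NX, hNX⟩ : ∃ NX, NX = (trapF M (x + δ)).card := ⟨_, rfl⟩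
  have hNX2 : 2 * NX = (x + δ + 1) * (x + δ + 2 * M + 2) := by
    rw [hNX]
    exact card_trapF M (x + δ)
  have hNXx : 2 * NX = 2 * Nx + δ * (2 * x + δ + 2 * M + 3) := by
    rw [hNX2, hNx2]
    ring
  obtain ⟨Nk, hNk⟩ : ∃ Nk, Nk = (k + 1) * (k + 2 * M + 2) := ⟨_, rfl⟩
  have hNkx : 2 * Nx + (m + 1) * (δ * (2 * x + δ + 2 * M + 3)) ≤ Nk := by
    rw [hNk, hNx2, hk]
    have h1 : δ * (2 * x + δ + 2 * M + 3) ≤ δ * (2 * x + (m + 1) * δ + 2 * M + 3) := by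
      refine Nat.mul_le_mul_left _ ?_
      have : 1 * δ ≤ (m + 1) * δ := Nat.mul_le_mul_right _ (by omega)
      omega
    have h2 := Nat.mul_le_mul_left (m + 1) h1
    refine le_trans (Nat.add_le_add_left h2 _) (le_of_eq ?_)
    ring
  rw [← hNk] at hN1 hN2
  have hP34 : (m + 1) * (2 * P3) = 2 * P4 := by rw [hP3, hP4]; ring
  have hm4 : (m + 1) * (2 * P3) ≤ (m + 1) * (δ * (2 * x + δ + 2 * M + 3)) :=
    Nat.mul_le_mul_left _ hC4
  -- the reserved points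
  have hcard : Nat.card {a // w a = k₀} = (Finset.univ.filter fun a => w a = k₀).card := by
    rw [Nat.card_eq_fintype_card, Fintype.card_subtype]
  rw [hcard] at hfr
  obtain ⟨e, he1, he2, he3⟩ := num_div hq0 hfr
  obtain ⟨E, hE, hEc⟩ := Finset.exists_subset_card_eq he3
  have hEw : ∀ a ∈ E, w a = k₀ := fun a ha => (Finset.mem_filter.1 (hE ha)).2
  obtain ⟨T, hT⟩ : ∃ T, T = Finset.univ.filter fun a => w a < k₀ := ⟨_, rfl⟩
  obtain ⟨B, hB⟩ : ∃ B, B = (Finset.univ.filter fun a => k₀ ≤ w a) \ E := ⟨_, rfl⟩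
  have hTmem : ∀ a, a ∈ T ↔ w a < k₀ := fun a => by rw [hT]; simp
  have hBmem : ∀ a, a ∈ B ↔ k₀ ≤ w a ∧ a ∉ E := fun a => by rw [hB]; simp
  obtain ⟨f, hf⟩ : ∃ f : ι → ℕ, f = fun a => (w a + 1).choose 2 := ⟨_, rfl⟩
  have hfa : ∀ a, f a = (w a + 1).choose 2 := fun a => by rw [hf]
  have hf2 : ∀ a, 2 * f a = w a * (w a + 1) := fun a => by rw [hfa]; exact two_choose' _
  -- sums
  have hTsum : 2 * ∑ a ∈ T, f a ≤ P4 := by
    refine le_trans (le_of_eq ?_) htail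
    rw [hT, Finset.mul_sum, Finset.sum_filter]
    refine Finset.sum_congr rfl fun a _ => ?_
    split_ifs
    · exact hf2 a
    · rfl
  obtain ⟨AT, hAT⟩ : ∃ AT, AT = ∑ a ∈ T, f a := ⟨_, rfl⟩
  rw [← hAT] at hTsum
  have hTBE : Disjoint (T ∪ B) E := by
    rw [Finset.disjoint_left]
    intro a ha ha'
    rcases Finset.mem_union.1 ha with h | h
    · rw [hTmem] at h
      have := hEw a ha'
      omega
    · exact ((hBmem a).1 h).2 ha'
  have hAll : ∑ a ∈ T ∪ B, f a + ∑ a ∈ E, f a = Aw w := by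
    rw [← Finset.sum_union hTBE]
    have h4 : T ∪ B ∪ E = Finset.univ := by
      rw [Finset.eq_univ_iff_forall]
      intro a
      rw [Finset.mem_union, Finset.mem_union, hTmem, hBmem]
      by_cases h : a ∈ E
      · tauto
      · rcases Nat.lt_or_ge (w a) k₀ with h' | h'
        · tauto
        · tauto
    rw [h4]
    unfold Aw
    exact Finset.sum_congr rfl fun a _ => hfa a
  have hEsum : 2 * ∑ a ∈ E, f a = e * q := by
    rw [Finset.sum_congr rfl (g := fun _ => c₀) (fun a ha => by rw [hfa, hEw a ha, hc₀]),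
      Finset.sum_const, smul_eq_mul, hEc, ← hc₀2]
    ring
  obtain ⟨lo, hlo⟩ : ∃ lo, lo = max (Nx + W + c + 1) AT := ⟨_, rfl⟩
  have e7 : m * (m + 1) * (m + 7) = m * (m + 1) * (m + 2) + 5 * (m * (m + 1)) := by ring
  have e6 : m * (m + 1) * (m + 6) = m * (m + 1) * (m + 2) + 4 * (m * (m + 1)) := by ring
  rw [e7] at n3
  rw [e6] at n6
  have hlo2 : 2 * lo + 2 * c + e * q + q ≤ Nk + 1 := by
    rcases le_total (Nx + W + c + 1) AT with h | h
    · rw [max_eq_right h] at hlo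
      omega
    · rw [max_eq_left h] at hlo
      omega
  have hloX : lo + 2 * c + W + c ≤ NX + 1 ∧ lo + 2 * c + (m + 1) ≤ NX + 1 := by
    rcases le_total (Nx + W + c + 1) AT with h | h
    · rw [max_eq_right h] at hlo
      omega
    · rw [max_eq_left h] at hlo
      omega
  obtain ⟨S, hS1, hS2, hS3, hS4, hS5⟩ := pick f T B c lo (Fintype.card ι + δ) hc0
    (fun a ha => by
      rw [hfa, hc]
      exact Nat.choose_le_choose 2 (by
        have := hw a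
        omega)) (by rw [← hAT, hlo]; exact le_max_right _ _) (by omega)
  obtain ⟨AS, hAS⟩ : ∃ AS, AS = ∑ a ∈ S, f a := ⟨_, rfl⟩
  rw [← hAS] at hS3 hS4
  have hASle : 2 * AS + e * q ≤ 2 * Aw w := by
    have h1 : ∑ a ∈ S, f a ≤ ∑ a ∈ T ∪ B, f a := Finset.sum_le_sum_of_subset hS2
    omega
  obtain ⟨wS, hwS⟩ : ∃ wS : {a // a ∈ S} → ℕ, wS = fun a : {a // a ∈ S} => w a := ⟨_, rfl⟩
  have hAwS : Aw wS = AS := by
    unfold Aw
    rw [hwS, hAS, Finset.sum_coe_sort S fun a => (w a + 1).choose 2]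
    exact Finset.sum_congr rfl fun a _ => (hfa a).symm
  have hwSm : ∀ a, wS a ≤ m := fun a => by rw [hwS]; exact hw a.1
  obtain ⟨A, hA⟩ : ∃ A, A = Aw (ov M wS) := ⟨_, rfl⟩
  have hA' : A = (M + 1).choose 2 + AS := by rw [hA, Aw_ov, hAwS]
  have hM2 := R4h.two_choose M
  -- the ranks of the placed points
  have hloN : Nx + W + c + 1 ≤ AS := by
    refine le_trans ?_ hS3
    rw [hlo]
    exact le_max_left _ _
  have hind : RkS (PF ℚ (ov M wS)) (Tset (M + (x + δ))) A := by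
    have h1 := (nc_trap ℚ hm hwSm (M := M) (k := x + δ) (by omega) (by
      refine le_trans hC2 ?_
      exact Nat.mul_le_mul (by omega) (by omega))).1 (by
        rw [← hW, ← hc, ← hNX, hAwS]
        omega)
    have h2 := big_ov h1
    rw [hAwS] at h2
    rw [hA', Nat.add_comm ((M + 1).choose 2)]
    exact h2
  have hfull : RkS (PF ℚ (ov M wS)) (Tset (M + x)) (Tfin (M + x)).card := by
    have h1 := (nc_trap ℚ hm hwSm (M := M) (k := x) hx hC2).2 (by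
      rw [← hW, ← hc, ← hNx, hAwS]
      omega)
    have h2 := big_ov h1
    rw [← hNx] at h2
    have h3 := card_Tfin (M + x)
    have h4 : (M + x + 1) * (M + x + 2) = (x + 1) * (x + 2 * M + 2) + M * (M + 1) := by ring
    have h5 : (Tfin (M + x)).card = Nx + (M + 1).choose 2 := by omega
    rw [h5]
    exact h2
  -- the place
  obtain ⟨A₂, hA₂⟩ : ∃ A₂, A₂ = Aw (fun a : {a // a ∉ S} => w a) := ⟨_, rfl⟩
  have hsplit := Aw_split w S
  rw [← hwS, hAwS, ← hA₂] at hsplit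
  obtain ⟨b, hb⟩ : ∃ b, b = M + (x + δ) + 1 := ⟨_, rfl⟩
  have hdb : M + k + 1 = δ * m + b := by
    rw [hk, hb]
    ring
  have hbb : b * (b + 1) = 2 * NX + M * (M + 1) := by
    rw [hNX2, hb]
    ring
  have hd2 := H932R7.two_choose (M + k)
  have hdk : (M + k + 1) * (M + k + 2) = Nk + M * (M + 1) := by
    rw [hNk]
    ring
  obtain ⟨N₀, hN₀⟩ : ∃ N₀, (M + k + 2).choose 2 = A + N₀ :=
    ⟨(M + k + 2).choose 2 - A, by omega⟩
  have hmin : min ((M + k + 2).choose 2) (Aw (ov M w)) = A + min N₀ A₂ := by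
    rw [Aw_ov]
    omega
  rw [hmin]
  refine place3 M w S (M + k) δ m b A hδ hm hdb (by omega) (by rw [hA, hwS]) ?_ ?_ (by omega)
    (by omega) _ ?_
  · rw [← hwS]
    have h1 : b - 1 = M + (x + δ) := by omega
    rw [h1]
    exact hind
  · rw [← hwS]
    have h1 : b - 1 - δ = M + x := by omega
    rw [h1]
    exact hfull
  · intro s u' t j g1 g2 g3 g4 g5
    have hsz : sz s u' t j = 2 * N₀ := by omega
    rw [hA₂]
    refine W608.t_x ℚ k₀ m hk₀ hkm {a // a ∉ S} (fun a => w a) (fun a => ?_)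
      _ N₀ s u' t j rfl g1 g2 hsz ?_ ?_ ?_ ?_ ?_
    · refine ⟨?_, hw a.1⟩
      by_contra h6
      exact a.2 (hS1 ((hTmem _).2 (not_le.1 h6)))
    · rw [← hsz]
      unfold sz
      have h8 : s * (m * (m + 1)) ≤ s * (u' * (u' + 1)) :=
        Nat.mul_le_mul_left _ (Nat.mul_le_mul g3 (by omega))
      have h9 : s * (u' * (u' + 1)) = s * u' * (u' + 1) := by ring
      omega
    · have h6 : Fintype.card {a // a ∉ S} = Fintype.card ι - S.card := by
        rw [Fintype.card_subtype_compl, Fintype.card_coe]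
      have h7 : S.card ≤ Fintype.card ι := Finset.card_le_univ S
      rw [h6]
      omega
    · rw [← hA₂, ← hq]
      omega
    · rw [← hA₂, ← hq]
      omega
    · rw [← hq]
      refine le_trans he1 (Nat.mul_le_mul_right q ?_)
      rw [← hEc, ← Fintype.card_coe, ← Nat.card_eq_fintype_card]
      refine Nat.card_le_card_of_injective (fun a => ⟨⟨a.1, ?_⟩, hEw a.1 a.2⟩) ?_
      · intro h8
        rcases Finset.mem_union.1 (hS2 h8) with h | h
        · rw [hTmem] at h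
          have := hEw a.1 a.2
          omega
        · exact ((hBmem _).1 h).2 a.2
      · intro a b hab
        have h8 := congrArg (fun t => (t.1.1 : ι)) hab
        exact Subtype.ext h8

end Pool.Agent.W609
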