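import Mathlib
import Pool.Agent.W611.Rank2
import Pool.Agent.W609.Near
import Pool.Agent.W609.Fin

set_option autoImplicit false

/-!
# Exact ranks with one point of arbitrary multiplicity, without condition on the frequencies
-/

namespace Pool.Agent.W609

open Polynomial Pool.Agent.H932R2 Pool.Agent.H932R3 Pool.Agent.H932R7
open Pool.Agent.W608 Pool.Agent.W611

theorem cube_le {p : ℕ} (hp : 2 ≤ p) : 8 * (p + 1) ^ 3 ≤ 16 * p ^ 4 - p ^ 2 := by
  obtain ⟨y, rfl⟩ : ∃ y, p = y + 2 := ⟨p - 2, by omega⟩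
  have h1 : 8 * (y + 2 + 1) ^ 3 + (y + 2) ^ 2 ≤ 16 * (y + 2) ^ 4 := by
    have h2 := Nat.zero_le (y * y)
    have h3 := Nat.zero_le (y * y * y)
    have h4 := Nat.zero_le (y * y * y * y)
    nlinarith
  omega

/-- The choice of the strips. -/
theorem split_k {m M k : ℕ} (hm : 0 < m) (hk : 2 * m + 1 ≤ k)
    (hbig : 64 * (m + 1) ^ 4 ≤ (k + 1) * (k + 2 * M + 2)) :
    ∃ δ x, k = (m + 1) * δ + x ∧ 0 < δ ∧ m ≤ x ∧
      2 * (m + 1) ^ 3 ≤ δ * (2 * x + δ + 2 * M + 3) ∧
      2 * (m + 1) ^ 4 ≤ (x + δ + 1) * (x + δ + 2 * M + 2) ∧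
      8 * (m + 2) ^ 3 ≤ (x + 1) * (x + 2 * M + 2) := by
  obtain ⟨p, hp⟩ : ∃ p, p = m + 1 := ⟨_, rfl⟩
  have hcub := cube_le (p := p) (by omega)
  have e2 : m + 2 = p + 1 := by omega
  rw [e2]
  rw [← hp] at hbig ⊢
  obtain ⟨Y, hY⟩ : ∃ Y, Y = k + 2 * M + 2 := ⟨_, rfl⟩
  rw [← hY] at hbig
  have hp2 : 2 ≤ p := by omega
  have hp0 : 0 < p := by omega
  have hpp : p ^ 4 = p * p ^ 3 := by ring
  have hp3 : p ^ 3 = p * (p * p) := by ring
  have hp22 : p ^ 2 = p * p := by ring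
  have h1p3 : p * 2 ≤ p ^ 3 := by
    rw [hp3]
    exact Nat.mul_le_mul_left _ (by nlinarith)
  rcases Nat.lt_or_ge k (4 * p) with h | h
  · have hY16 : 16 * p ^ 3 ≤ Y := by
      have h1 : (k + 1) * Y ≤ 4 * p * Y := Nat.mul_le_mul_right _ (by omega)
      have h2 : 4 * p * (16 * p ^ 3) ≤ 4 * p * Y := by
        calc 4 * p * (16 * p ^ 3) = 64 * p ^ 4 := by ring
          _ ≤ _ := hbig.trans h1
      exact Nat.le_of_mul_le_mul_left h2 (by omega)
    obtain ⟨x, hx⟩ : ∃ x, k = p + x := ⟨k - p, by omega⟩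
    have hpx : p ≤ x + 1 := by omega
    refine ⟨1, x, by omega, by omega, by omega, by omega, ?_, ?_⟩
    · have h1 : p * (2 * p ^ 3) ≤ (x + 1 + 1) * (x + 1 + 2 * M + 2) :=
        Nat.mul_le_mul (by omega) (by omega)
      calc 2 * p ^ 4 = p * (2 * p ^ 3) := by ring
        _ ≤ _ := h1
    · have h1 : p * (16 * p ^ 3 - p) ≤ (x + 1) * (x + 2 * M + 2) :=
        Nat.mul_le_mul (by omega) (by omega)
      have h2 : p * (16 * p ^ 3 - p) = 16 * p ^ 4 - p ^ 2 := by
        rw [Nat.mul_sub]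
        congr 1 <;> ring
      omega
  · obtain ⟨δ, hδ⟩ : ∃ δ, δ = k / (2 * p) := ⟨_, rfl⟩
    have hd1 : 2 * p * δ ≤ k := by
      rw [hδ]
      exact Nat.mul_div_le k (2 * p)
    have hd2 : k < 2 * p * δ + 2 * p := by
      have h1 : k < 2 * p * (k / (2 * p) + 1) := Nat.lt_mul_div_succ k (by omega)
      rw [hδ]
      have h2 : 2 * p * (k / (2 * p) + 1) = 2 * p * (k / (2 * p)) + 2 * p := by ring
      omega
    have hδ2 : 2 ≤ δ := by
      rw [hδ, Nat.le_div_iff_mul_le (by omega)]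
      omega
    have hpδ : p * 2 ≤ p * δ := Nat.mul_le_mul_left _ hδ2
    have e1 : 2 * p * δ = 2 * (p * δ) := by ring
    rw [e1] at hd1 hd2
    obtain ⟨x, hx⟩ : ∃ x, k = p * δ + x := ⟨k - p * δ, by omega⟩
    have hxk : k ≤ 2 * x := by omega
    refine ⟨δ, x, hx, by omega, by omega, ?_, ?_, ?_⟩
    · have h1 : δ * Y ≤ δ * (2 * x + δ + 2 * M + 3) := Nat.mul_le_mul_left _ (by omega)
      refine le_trans ?_ h1
      have h2 : (k + 1) * Y ≤ 3 * p * δ * Y := by
        refine Nat.mul_le_mul_right _ ?_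
        have : 3 * p * δ = 3 * (p * δ) := by ring
        omega
      have h3 : 3 * p * (2 * p ^ 3) ≤ 3 * p * (δ * Y) := by
        calc 3 * p * (2 * p ^ 3) = 6 * p ^ 4 := by ring
          _ ≤ 64 * p ^ 4 := by omega
          _ ≤ _ := hbig.trans h2
          _ = 3 * p * (δ * Y) := by ring
      exact Nat.le_of_mul_le_mul_left h3 (by omega)
    · have h1 : (k + 1) * Y ≤ (2 * (x + δ + 1)) * (2 * (x + δ + 2 * M + 2)) :=
        Nat.mul_le_mul (by omega) (by omega)
      have h2 : (2 * (x + δ + 1)) * (2 * (x + δ + 2 * M + 2)) =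
          4 * ((x + δ + 1) * (x + δ + 2 * M + 2)) := by ring
      omega
    · have h1 : (k + 1) * Y ≤ (2 * (x + 1)) * (2 * (x + 2 * M + 2)) :=
        Nat.mul_le_mul (by omega) (by omega)
      have h2 : (2 * (x + 1)) * (2 * (x + 2 * M + 2)) =
          4 * ((x + 1) * (x + 2 * M + 2)) := by ring
      omega

theorem numE {m : ℕ} :
    m * (m * (m + 1) * (m + 3)) + m * (m + 1) ≤ 2 * (m + 1) ^ 4 := by
  have h2 := Nat.zero_le (m * m)
  have h3 := Nat.zero_le (m * m * m)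
  have h4 := Nat.zero_le (m * m * m * m)
  nlinarith

theorem numF {m k : ℕ} (hk : k + 1 ≤ m) : k * (m * (m + 1) * (m + 3)) ≤ (m + 1) ^ 4 := by
  have h1 : k * (m * (m + 1) * (m + 3)) ≤ (m - 1) * (m * (m + 1) * (m + 3)) :=
    Nat.mul_le_mul_right _ (by omega)
  refine h1.trans ?_
  obtain ⟨y, rfl⟩ : ∃ y, m = y + 1 := ⟨m - 1, by omega⟩
  rw [Nat.add_sub_cancel]
  have h2 := Nat.zero_le (y * y)
  have h3 := Nat.zero_le (y * y * y)
  have h4 := Nat.zero_le (y * y * y * y)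
  nlinarith

/-- A frequent multiplicity. -/
theorem exists_rich' {ι : Type} [Fintype ι] (w : ι → ℕ) (m X : ℕ) (hm : 0 < m)
    (hw : ∀ a, w a ≤ m) (hX : 2 * (m + 1) ^ 4 ≤ X) (hA : X < 2 * Aw w + m * (m + 1)) :
    ∃ k₀, 0 < k₀ ∧ k₀ ≤ m ∧
      m * (m + 1) * (m + 3) ≤ Nat.card {a // w a = k₀} * (k₀ * (k₀ + 1)) ∧
      (∑ a, if w a < k₀ then w a * (w a + 1) else 0) ≤ (m + 1) ^ 4 := by
  classical
  have hex : ∃ k, 1 ≤ k ∧ k ≤ m ∧
      m * (m + 1) * (m + 3) ≤ Nat.card {a // w a = k} * (k * (k + 1)) := by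
    by_contra hcon
    push Not at hcon
    have h1 := tail_le w (m * (m + 1) * (m + 3)) m fun k hk hk' => (hcon k hk (by omega)).le
    have h2 : (∑ a, if w a < m + 1 then w a * (w a + 1) else 0) = 2 * Aw w := by
      unfold Aw
      rw [Finset.mul_sum]
      refine Finset.sum_congr rfl fun a _ => ?_
      rw [if_pos (by have := hw a; omega), two_choose']
    have h5 := numE (m := m)
    omega
  obtain ⟨hf0, hf1, hf2⟩ := Nat.find_spec hex
  have hfmin := fun k => Nat.find_min hex (m := k)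
  obtain ⟨k₀, hk₀⟩ : ∃ k₀, k₀ = Nat.find hex := ⟨_, rfl⟩
  rw [← hk₀] at hf0 hf1 hf2 hfmin
  refine ⟨k₀, hf0, hf1, hf2, ?_⟩
  obtain ⟨κ, hκ⟩ : ∃ κ, k₀ = κ + 1 := ⟨k₀ - 1, by omega⟩
  have h3 := tail_le w (m * (m + 1) * (m + 3)) κ fun k hk hk' => by
    by_contra h4
    exact hfmin k (by omega) ⟨hk, by omega, (not_le.1 h4).le⟩
  rw [hκ]
  exact le_trans h3 (numF (by omega))

/-- The ranks with one point of arbitrary multiplicity. -/
theorem rankO (m M : ℕ) (hm : 0 < m) (ι : Type) [Fintype ι] (w : ι → ℕ) (hw : ∀ a, w a ≤ m)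
    (k : ℕ) (hk : 2 * m + 1 ≤ k) (hbig : 64 * (m + 1) ^ 4 ≤ (k + 1) * (k + 2 * M + 2)) :
    RkS (PF ℚ (ov M w)) (Tset (M + k)) (min ((M + k + 2).choose 2) (Aw (ov M w))) := by
  classical
  obtain ⟨δ, x₀, hx1, hx2, hx3, hx4, hx5, hx6⟩ := split_k hm hk hbig
  obtain ⟨N, hN⟩ : ∃ N, N = (trapF M k).card := ⟨_, rfl⟩
  have hN2 : 2 * N = (k + 1) * (k + 2 * M + 2) := by rw [hN]; exact card_trapF M k
  have hM2 := R4h.two_choose M
  have hd2 := H932R7.two_choose (M + k)
  have hdk : (M + k + 1) * (M + k + 2) = (k + 1) * (k + 2 * M + 2) + M * (M + 1) := by ring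
  have hNM : (M + k + 2).choose 2 = (M + 1).choose 2 + N := by omega
  have hP : 2 * (m + 1) ^ 4 ≤ (k + 1) * (k + 2 * M + 2) := le_trans (by omega) hbig
  rw [hNM, Aw_ov]
  rcases Nat.le_total (Aw w) N with hAN | hNA
  · -- adding points of multiplicity `m`, then of multiplicity `k₀`
    rw [min_eq_right (by omega)]
    obtain ⟨c, hc⟩ : ∃ c, c = (m + 1).choose 2 := ⟨_, rfl⟩
    have hc2 : 2 * c = m * (m + 1) := by rw [hc]; exact two_choose' m
    have hc0 : 0 < c := by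
      rw [hc]
      exact Nat.choose_pos (by omega)
    obtain ⟨x, hx⟩ : ∃ x, x = (N - Aw w) / c := ⟨_, rfl⟩
    have hx1' : x * c ≤ N - Aw w := by
      rw [hx]
      exact Nat.div_mul_le_self _ _
    have hx2' : N - Aw w < x * c + c := by
      rw [hx]
      exact Nat.lt_div_mul_add hc0
    obtain ⟨w1, hw1⟩ : ∃ w1 : ι ⊕ Fin x → ℕ, w1 = Sum.elim w (fun _ : Fin x => m) := ⟨_, rfl⟩
    have hA1 : Aw w1 = Aw w + x * c := by
      unfold Aw
      rw [hw1, Fintype.sum_sum_type]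
      simp only [Sum.elim_inl, Sum.elim_inr, Finset.sum_const, Finset.card_univ, Fintype.card_fin,
        smul_eq_mul]
      rw [← hc]
    have hw1m : ∀ a, w1 a ≤ m := by
      rw [hw1]
      rintro (a | a)
      · exact hw a
      · exact le_rfl
    obtain ⟨k₀, h0, h1, h2, h3⟩ := exists_rich' w1 m _ hm hw1m hP (by omega)
    obtain ⟨c₀, hc₀⟩ : ∃ c₀, c₀ = (k₀ + 1).choose 2 := ⟨_, rfl⟩
    have hc₀2 : 2 * c₀ = k₀ * (k₀ + 1) := by rw [hc₀]; exact two_choose' k₀
    have hc₀0 : 0 < c₀ := by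
      rw [hc₀]
      exact Nat.choose_pos (by omega)
    obtain ⟨y, hy⟩ : ∃ y, y = (N - Aw w1) / c₀ := ⟨_, rfl⟩
    have hy1 : y * c₀ ≤ N - Aw w1 := by
      rw [hy]
      exact Nat.div_mul_le_self _ _
    have hy2 : N - Aw w1 < y * c₀ + c₀ := by
      rw [hy]
      exact Nat.lt_div_mul_add hc₀0
    obtain ⟨w2, hw2⟩ : ∃ w2 : (ι ⊕ Fin x) ⊕ Fin y → ℕ,
      w2 = Sum.elim w1 (fun _ : Fin y => k₀) := ⟨_, rfl⟩
    have hA2 : Aw w2 = Aw w1 + y * c₀ := by
      unfold Aw
      rw [hw2, Fintype.sum_sum_type]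
      simp only [Sum.elim_inl, Sum.elim_inr, Finset.sum_const, Finset.card_univ, Fintype.card_fin,
        smul_eq_mul]
      rw [← hc₀]
    have hw2m : ∀ a, w2 a ≤ m := by
      rw [hw2]
      rintro (a | a)
      · exact hw1m a
      · exact h1
    have hq : k₀ * (k₀ + 1) ≤ m * (m + 1) := Nat.mul_le_mul h1 (by omega)
    have h := rankN k₀ m M h0 h1 _ w2 hw2m k δ x₀ hx1 hx2 hx3 hx4 hx5 hx6
      (by
        rw [hw2, Fintype.sum_sum_type]
        have h4 : (∑ b : Fin y, if Sum.elim w1 (fun _ : Fin y => k₀) (Sum.inr b) < k₀ then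
            Sum.elim w1 (fun _ : Fin y => k₀) (Sum.inr b) *
              (Sum.elim w1 (fun _ : Fin y => k₀) (Sum.inr b) + 1) else 0) = 0 :=
          Finset.sum_eq_zero fun b _ => if_neg (lt_irrefl _)
        rw [h4, add_zero]
        exact h3)
      (by omega) (by omega)
      (by
        have h4 : Nat.card {a // w1 a = k₀} ≤ Nat.card {a // w2 a = k₀} := by
          refine Nat.card_le_card_of_injective (fun a => ⟨Sum.inl a.1, ?_⟩) ?_
          · rw [hw2]
            exact a.2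
          · intro a b hab
            have h5 := congrArg Subtype.val hab
            exact Subtype.ext (Sum.inl_injective h5)
        have h5 := Nat.mul_le_mul_right (k₀ * (k₀ + 1)) h4
        have h6 : m * (m + 1) * (m + 3) = m * (m + 1) * (m + 2) + m * (m + 1) := by ring
        omega)
    rw [hNM, min_eq_right (by rw [Aw_ov]; omega), ← coe_Tfin] at h
    rw [← Aw_ov, ← coe_Tfin]
    refine (t_tr ℚ (Option ι) (Option ((ι ⊕ Fin x) ⊕ Fin y)) (ov M w) (ov M w2)
      ⟨fun o => o.1.map fun a => Sum.inl (Sum.inl a), fun a b hab => ?_⟩ (fun a => ?_)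
      (Tfin (M + k))).1 h
    · exact Subtype.ext (Option.map_injective
        (Sum.inl_injective.comp Sum.inl_injective) hab)
    · obtain ⟨_ | a, ha⟩ := a
      · exact le_rfl
      · change w a ≤ w2 (Sum.inl (Sum.inl a))
        rw [hw2, hw1]
        exact le_rfl
  · -- removing points
    rw [min_eq_left (by omega)]
    obtain ⟨f, hf⟩ : ∃ f : ι → ℕ, f = fun a => (w a + 1).choose 2 := ⟨_, rfl⟩
    have hfa : ∀ a, f a = (w a + 1).choose 2 := fun a => by rw [hf]
    have hAf : Aw w = ∑ a, f a := by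
      unfold Aw
      exact Finset.sum_congr rfl fun a _ => (hfa a).symm
    obtain ⟨S, hS, hSmin⟩ := Finset.exists_min_image
      ((Finset.univ : Finset ι).powerset.filter fun S => N ≤ ∑ a ∈ S, f a)
      Finset.card ⟨Finset.univ, by
        rw [Finset.mem_filter, Finset.mem_powerset]
        exact ⟨Finset.Subset.refl _, by rw [← hAf]; exact hNA⟩⟩
    rw [Finset.mem_filter] at hS
    obtain ⟨-, hS2⟩ := hS
    have hSer : ∀ a ∈ S, ∑ b ∈ S, f b < N + f a := by
      intro a ha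
      by_contra hcon
      have h1 : ∑ b ∈ S.erase a, f b + f a = ∑ b ∈ S, f b := Finset.sum_erase_add _ _ ha
      have h2 := hSmin (S.erase a) (by
        rw [Finset.mem_filter, Finset.mem_powerset]
        exact ⟨Finset.subset_univ _, by omega⟩)
      rw [Finset.card_erase_of_mem ha] at h2
      have h3 : 0 < S.card := Finset.card_pos.2 ⟨a, ha⟩
      omega
    obtain ⟨w1, hw1⟩ : ∃ w1 : {a // a ∈ S} → ℕ, w1 = fun a : {a // a ∈ S} => w a :=
      ⟨_, rfl⟩
    have hA1 : Aw w1 = ∑ a ∈ S, f a := by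
      unfold Aw
      rw [hw1, Finset.sum_coe_sort S fun a => (w a + 1).choose 2]
      exact Finset.sum_congr rfl fun a _ => (hfa a).symm
    have hw1m : ∀ a, w1 a ≤ m := fun a => by rw [hw1]; exact hw a.1
    have hmm : 0 < m * (m + 1) := by positivity
    obtain ⟨k₀, h0, h1, h2, h3⟩ := exists_rich' w1 m _ hm hw1m hP (by omega)
    have hF0 : 0 < m * (m + 1) * (m + 3) := by positivity
    obtain ⟨a, ha⟩ : ∃ a : {a // a ∈ S}, w1 a = k₀ := by
      by_contra hcon
      push Not at hcon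
      have h4 : Nat.card {a // w1 a = k₀} = 0 := by
        rw [Nat.card_eq_zero]
        left
        exact ⟨fun a => hcon a.1 a.2⟩
      rw [h4, zero_mul] at h2
      omega
    have hak : w a.1 = k₀ := by
      rw [← ha, hw1]
    have h4 := hSer a.1 a.2
    rw [hfa, hak] at h4
    have hc₀2 := two_choose' k₀
    have hq : k₀ * (k₀ + 1) ≤ m * (m + 1) := Nat.mul_le_mul h1 (by omega)
    have hq0 : 0 < k₀ * (k₀ + 1) := by positivity
    have h := rankN k₀ m M h0 h1 _ w1 hw1m k δ x₀ hx1 hx2 hx3 hx4 hx5 hx6 h3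
      (by omega) (by omega)
      (by
        have h6 : m * (m + 1) * (m + 3) = m * (m + 1) * (m + 2) + m * (m + 1) := by ring
        omega)
    rw [hNM, min_eq_left (by rw [Aw_ov]; omega), ← coe_Tfin] at h
    rw [← coe_Tfin]
    have hle : ∀ a : {a // a ∈ S}, w1 a ≤ w a.1 := by
      rw [hw1]
      exact fun a => le_rfl
    refine (t_tr ℚ (Option {a // a ∈ S}) (Option ι) (ov M w1) (ov M w)
      ⟨fun o => o.1.map Subtype.val, fun a b hab => ?_⟩ (fun a => ?_)
      (Tfin (M + k))).2 _ h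
    · exact Subtype.ext (Option.map_injective Subtype.val_injective hab)
    · obtain ⟨_ | a, ha⟩ := a
      · exact le_rfl
      · exact hle a

end Pool.Agent.W609
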