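import Mathlib
import Pool.Agent.W609.Rank

set_option autoImplicit false

/-!
# One point of arbitrary multiplicity, all other multiplicities at most `m`: general points
-/

namespace Pool.Agent.W609

open Polynomial Pool.Agent.H932R2 Pool.Agent.H932R3 Pool.Agent.H932R7

theorem cons_of_ov {n M N : ℕ} {w : Fin n → ℕ} {T : Set (ℕ × ℕ)}
    (h : RkS (PF ℚ (ov M w)) T N) : RkS (PF ℚ (Fin.cons M w : Fin (n + 1) → ℕ)) T N := by
  obtain ⟨_, ⟨c, γ, rfl⟩, hR⟩ := h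
  refine ⟨_, ⟨Fin.cons (c none) fun i => c (some i), Fin.cons (γ none) fun i => γ (some i), rfl⟩,
    hR.anti ?_⟩
  unfold vIdeal
  refine le_iInf fun x => ?_
  rcases x with _ | i
  · refine iInf_le_of_le 0 ?_
    simp only [Fin.cons_zero]
    exact le_rfl
  · refine iInf_le_of_le i.succ ?_
    simp only [Fin.cons_succ]
    exact le_rfl

/-- The good degrees. -/
def Ge (M m d : ℕ) : Prop := M + 2 * m + 1 ≤ d ∧ 64 * (m + 1) ^ 4 + M * (M + 1) ≤ (d + 1) * (d + 2)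

theorem Ge_mono {M m a b : ℕ} (h : a ≤ b) (ha : Ge M m a) : Ge M m b :=
  ⟨ha.1.trans h, ha.2.trans (Nat.mul_le_mul (by omega) (by omega))⟩

theorem Ge_ex (M m : ℕ) : ∃ d, Ge M m d := by
  obtain ⟨X, hX⟩ : ∃ X, X = 64 * (m + 1) ^ 4 + M * (M + 1) := ⟨_, rfl⟩
  refine ⟨X + M + 2 * m + 1, by omega, ?_⟩
  rw [← hX]
  exact le_trans (by omega : X ≤ X + M + 2 * m + 1 + 1) (Nat.le_mul_of_pos_right _ (by omega))

theorem keyE {M m A d : ℕ} (hm : 0 < m) (hA : 64 * (m + 1) ^ 4 ≤ A) (hd : M + 2 * m + 1 ≤ d)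
    (hG : ¬ Ge M m d) :
    ∃ e, d ≤ e ∧ Ge M m e ∧ (e + 2).choose 2 ≤ (M + 1).choose 2 + A := by
  classical
  have hP : 0 < (m + 1) ^ 4 := by positivity
  have h3 := R4h.two_choose M
  have h : (d + 2).choose 2 ≤ (M + 1).choose 2 + A := by
    have h1 := H932R7.two_choose d
    have h4 : (d + 1) * (d + 2) < 64 * (m + 1) ^ 4 + M * (M + 1) := by
      by_contra h
      exact hG ⟨hd, not_lt.1 h⟩
    omega
  obtain ⟨A', hA'⟩ : ∃ A', A' = (M + 1).choose 2 + A := ⟨_, rfl⟩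
  rw [← hA'] at h ⊢
  have hle : ∀ e : ℕ, (e + 2).choose 2 ≤ A' → e ≤ A' := by
    intro e he
    have h1 := H932R7.two_choose e
    nlinarith
  let P : ℕ → Prop := fun e => (e + 2).choose 2 ≤ A'
  obtain ⟨e, he⟩ : ∃ e, e = Nat.findGreatest P A' := ⟨_, rfl⟩
  have hPe : P e := by
    rw [he]
    exact Nat.findGreatest_spec (P := P) (hle d h) h
  have hde : d ≤ e := by
    rw [he]
    exact Nat.le_findGreatest (hle d h) h
  have hnot : ¬ P (e + 1) := by
    intro h1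
    have h2 : e + 1 ≤ Nat.findGreatest P A' := Nat.le_findGreatest (hle _ h1) h1
    omega
  refine ⟨e, hde, ⟨by omega, ?_⟩, hPe⟩
  have hnot' : A' < (e + 1 + 2).choose 2 := not_le.1 hnot
  have h1 := H932R7.two_choose (e + 1)
  by_contra hcon
  push Not at hcon
  obtain ⟨κ, hκ⟩ : ∃ κ, e = M + κ := ⟨e - M, by omega⟩
  have hκ3 : 3 ≤ κ := by omega
  have h4 : (e + 1 + 1) * (e + 1 + 2) = (e + 1) * (e + 2) + 2 * (e + 2) := by ring
  have h5 : (e + 1) * (e + 2) = (κ + 1) * (κ + 2 * M + 2) + M * (M + 1) := by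
    rw [hκ]
    ring
  have h6 : 4 * (e + 2) ≤ (κ + 1) * (κ + 2 * M + 2) := Nat.mul_le_mul (by omega) (by omega)
  omega

/-- One point of arbitrary multiplicity, the others of multiplicity at most `m`. -/
theorem one_big2 (L : Type) [Field L] [CharZero L] {n : ℕ} {w : Fin n → ℕ} {M m : ℕ}
    (hw : ∀ a, w a ≤ m) :
    ∃ F : MvPolynomial (Fin (n + 1) × Fin 2) ℚ, F ≠ 0 ∧ ∀ P : Fin (n + 1) → Fin 2 → L,
      MvPolynomial.aeval (fun ij : Fin (n + 1) × Fin 2 => P ij.1 ij.2) F ≠ 0 →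
        ∀ d : ℕ, M + 2 * m + 1 ≤ d →
          (64 * (m + 1) ^ 4 + M * (M + 1) ≤ (d + 1) * (d + 2) ∨ 64 * (m + 1) ^ 4 ≤ Aw w) →
          ExpDim L (Fin.cons M w : Fin (n + 1) → ℕ) P d := by
  classical
  have hAc := Aw_cons M w
  have hAo := Aw_ov M w
  obtain ⟨m', hm', hm1, hm2⟩ : ∃ m', 0 < m' ∧ m ≤ m' ∧ (m' = m ∨ m = 0) := by
    rcases Nat.eq_zero_or_pos m with h | h
    · exact ⟨1, one_pos, by omega, Or.inr h⟩
    · exact ⟨m, h, le_rfl, Or.inl rfl⟩
  rcases hm2 with rfl | h0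
  · have hR : ∀ d, Ge M m' d →
        RkS (PF ℚ (Fin.cons M w : Fin (n + 1) → ℕ)) (Tset d)
          (min ((d + 2).choose 2) (Aw (Fin.cons M w : Fin (n + 1) → ℕ))) := by
      intro d hG
      obtain ⟨h1, h2⟩ := hG
      obtain ⟨κ, rfl⟩ : ∃ κ, d = M + κ := ⟨d - M, by omega⟩
      have h5 : (M + κ + 1) * (M + κ + 2) = (κ + 1) * (κ + 2 * M + 2) + M * (M + 1) := by ring
      have h6 := cons_of_ov (rankO m' M hm' (Fin n) w hw κ (by omega) (by omega))
      rw [hAo, ← hAc] at h6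
      exact h6
    obtain ⟨F, hF, hF'⟩ := fin_abs L (Fin.cons M w : Fin (n + 1) → ℕ) 0 0 (Ge M m')
      (fun a b hab => Ge_mono hab) (Ge_ex M m') (fun d hG _ => hR d hG) (fun d hG hd => by
        have h9 := hR d hG
        rwa [min_eq_left (by omega)] at h9)
    refine ⟨F, hF, fun P hP d hd hbig => hF' P hP d ?_⟩
    by_cases hG : Ge M m' d
    · exact Or.inl ⟨hG, by omega⟩
    · right
      have hA : 64 * (m' + 1) ^ 4 ≤ Aw w := by
        rcases hbig with h | h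
        · exact absurd ⟨hd, h⟩ hG
        · exact h
      rw [hAc]
      exact keyE hm' hA hd hG
  · -- all small multiplicities vanish
    subst h0
    have hw0 : ∀ a, w a = 0 := fun a => Nat.le_zero.1 (hw a)
    have hA0 : Aw w = 0 := by
      unfold Aw
      exact Finset.sum_eq_zero fun a _ => by rw [hw0 a]; rfl
    have hR : RkS (PF ℚ (Fin.cons M w : Fin (n + 1) → ℕ)) (Tset M)
        (Aw (Fin.cons M w : Fin (n + 1) → ℕ)) := by
      have h1 : RkS (PF ℚ w) (↑(trapF M 0) : Set (ℕ × ℕ)) 0 :=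
        ⟨_, ⟨fun _ => 0, fun _ => 0, rfl⟩, Fin.elim0, fun i => Fin.elim0 i,
          fun _ _ i => Fin.elim0 i⟩
      have h2 := big_point h1
      rw [Nat.zero_add] at h2
      have e : Aw (Fin.cons M w : Fin (n + 1) → ℕ) = (M + 1).choose 2 := by
        rw [hAc, hA0]
        rfl
      rw [e]
      exact h2
    obtain ⟨F, hF, hF'⟩ := exp_of_indep (L := L) T_HOP hR
    exact ⟨F, hF, fun P hP d hd _ => hF' P hP d (by omega)⟩

end Pool.Agent.W609
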