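import Mathlib
import Pool.Agent.H932R3.Finals
import Pool.Agent.W610.UpExp

set_option autoImplicit false

/-!
# Every multiplicity, up to an exponentially small relative error
-/

namespace Pool.Agent.W609.U

open Pool.Agent.H932R3 Pool.Agent.H932R5

theorem reach_of_up {δ : ℕ} {σ : ℝ} (h : Up ((δ : ℝ) ^ 2) σ) : Reach δ σ := by
  induction h with
  | base => exact Reach.base
  | step σ ρ _ h2 ih => exact Reach.step σ ρ ih h2

theorem wedge_of_close {k n δ : ℕ} {σ : ℝ} (hn16 : 16 ≤ n) (h1 : 4 ≤ δ) (h2 : δ * δ ≤ n)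
    (h3 : Reach δ σ) (h4 : 0 ≤ (n : ℝ) - σ) (h5 : (n : ℝ) - σ ≤ 1 / (n : ℝ) ^ k) :
    WedgeData k n δ σ := by
  have hnR : (16 : ℝ) ≤ n := by exact_mod_cast hn16
  have hn0 : (0 : ℝ) < n := by linarith
  have hnk : 1 ≤ (n : ℝ) ^ k := one_le_pow₀ (by linarith)
  obtain ⟨ε, hε⟩ : ∃ ε : ℝ, ε = 1 / (n : ℝ) ^ k := ⟨_, rfl⟩
  have hε0 : 0 < ε := by rw [hε]; positivity
  have hε1 : ε ≤ 1 := by
    rw [hε, div_le_one (by positivity)]
    exact hnk
  rw [← hε] at h5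
  have hσ0 : 0 < σ := h3.pos (by omega)
  have hτ0 : 0 < Real.sqrt σ := Real.sqrt_pos.2 hσ0
  have hss : Real.sqrt n * Real.sqrt n = n := Real.mul_self_sqrt hn0.le
  have hττ : Real.sqrt σ * Real.sqrt σ = σ := Real.mul_self_sqrt hσ0.le
  have hτs : Real.sqrt σ ≤ Real.sqrt n := Real.sqrt_le_sqrt (by linarith)
  refine ⟨h1, h2, h3, by linarith, by linarith, ?_, ?_⟩
  · intro S d hS hd h
    rw [← hε] at h
    have h6 : d * Real.sqrt σ ≤ d * Real.sqrt n := mul_le_mul_of_nonneg_left hτs hd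
    have h7 : (n - σ) * (S / n) ≤ ε * S := by
      have h8 : S / n ≤ S := div_le_self hS (by linarith)
      exact mul_le_mul h5 h8 (by positivity) hε0.le
    linarith
  · intro M d hM h
    rw [← hε] at h
    have h6 : (1 + ε) * (Real.sqrt n * M) * Real.sqrt σ ≤ (d - Real.sqrt n) * Real.sqrt σ :=
      mul_le_mul_of_nonneg_right (by linarith) hτ0.le
    refine le_trans ?_ h6
    have h7 : σ ≤ Real.sqrt n * Real.sqrt σ := by
      calc σ = Real.sqrt σ * Real.sqrt σ := hττ.symm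
        _ ≤ Real.sqrt n * Real.sqrt σ := mul_le_mul_of_nonneg_right hτs hτ0.le
    have h8 : (n : ℝ) ≤ (1 + ε) * σ := by nlinarith
    have h9 : (1 + ε) * σ ≤ (1 + ε) * (Real.sqrt n * Real.sqrt σ) :=
      mul_le_mul_of_nonneg_left h7 (by linarith)
    calc n * M ≤ (1 + ε) * (Real.sqrt n * Real.sqrt σ) * M :=
          mul_le_mul_of_nonneg_right (h8.trans h9) hM
      _ = (1 + ε) * (Real.sqrt n * M) * Real.sqrt σ := by ring

theorem exists_wedgeX {n : ℕ} (hn : (2 : ℝ) ^ 1000 ≤ n) :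
    ∃ k δ : ℕ, ∃ σ : ℝ, WedgeData k n δ σ ∧
      1 / (n : ℝ) ^ k ≤ n * Real.exp (-((n : ℝ) ^ (1 / 10 : ℝ))) := by
  have h1 : (1 : ℝ) < n := lt_of_lt_of_le (one_lt_pow₀ (by norm_num) (by norm_num)) hn
  have h16 : (16 : ℝ) ≤ n := by
    refine le_trans ?_ hn
    calc (16 : ℝ) = 2 ^ 4 := by norm_num
      _ ≤ 2 ^ 1000 := pow_le_pow_right₀ (by norm_num) (by norm_num)
  obtain ⟨σ, hσ, hσ1, hσ2⟩ := W610.exists_up_exp (s0 := ((4 : ℕ) : ℝ) ^ 2) (u := n) (by norm_num) hn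
    (by
      have h2 : (16 : ℝ) ^ 4 = 65536 := by norm_num
      have h3 : (65536 : ℝ) ≤ n := by
        refine le_trans ?_ hn
        calc (65536 : ℝ) = 2 ^ 16 := by norm_num
          _ ≤ 2 ^ 1000 := pow_le_pow_right₀ (by norm_num) (by norm_num)
      have h4 : (n : ℝ) ≤ n ^ 3 := le_self_pow₀ h1.le (by norm_num)
      calc (((4 : ℕ) : ℝ) ^ 2) ^ 4 = 65536 := by norm_num
        _ ≤ n := h3
        _ ≤ (n : ℝ) ^ 3 := h4)
  clear hn
  have hn0 : (0 : ℝ) < n := by linarith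
  have hn16 : 16 ≤ n := by exact_mod_cast h16
  obtain ⟨X, hX⟩ : ∃ X, X = (n : ℝ) ^ (1 / 10 : ℝ) := ⟨_, rfl⟩
  rw [← hX] at hσ2 ⊢
  have hX0 : 0 ≤ X := by rw [hX]; positivity
  have hex : ∃ k : ℕ, Real.exp X < (n : ℝ) ^ (k + 1) := by
    obtain ⟨k, hk⟩ := pow_unbounded_of_one_lt (Real.exp X) h1
    exact ⟨k, hk.trans_le (pow_le_pow_right₀ h1.le (by omega))⟩
  classical
  obtain ⟨k, hk⟩ : ∃ k, k = Nat.find hex := ⟨_, rfl⟩
  have hk1 : Real.exp X < (n : ℝ) ^ (k + 1) := by rw [hk]; exact Nat.find_spec hex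
  have hk2 : (n : ℝ) ^ k ≤ Real.exp X := by
    rcases Nat.eq_zero_or_pos k with h0 | h0
    · rw [h0, pow_zero]
      exact Real.one_le_exp hX0
    · have h2 := Nat.find_min hex (m := k - 1) (by rw [← hk]; omega)
      rw [Nat.sub_add_cancel h0] at h2
      exact le_of_not_gt h2
  refine ⟨k, 4, σ, wedge_of_close hn16 le_rfl (by omega) (reach_of_up hσ) (by linarith) ?_, ?_⟩
  · refine hσ2.trans ?_
    rw [Real.exp_neg, ← one_div]
    exact one_div_le_one_div_of_le (by positivity) hk2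
  · rw [Real.exp_neg, div_le_iff₀ (by positivity), mul_assoc, mul_comm (Real.exp X)⁻¹,
      ← mul_assoc, ← div_eq_mul_inv, le_div_iff₀ (Real.exp_pos X), one_mul, ← pow_succ']
    exact hk1.le

/-- All multiplicities, exponentially small relative error. -/
theorem wedge_expX (L : Type) [Field L] [CharZero L] {n : ℕ} (hn : (2 : ℝ) ^ 1000 ≤ n)
    (w : Fin n → ℕ) :
    ∃ F : MvPolynomial (Fin n × Fin 2) ℚ, F ≠ 0 ∧
      ∀ P : Fin n → Fin 2 → L,
        MvPolynomial.aeval (fun ij : Fin n × Fin 2 => P ij.1 ij.2) F ≠ 0 →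
        ∀ d : ℕ, 0 < d →
          (Real.sqrt n * d ≤ (1 - n * Real.exp (-((n : ℝ) ^ (1 / 10 : ℝ)))) * ∑ a, (w a : ℝ) ∨
            ∀ a, (1 + n * Real.exp (-((n : ℝ) ^ (1 / 10 : ℝ)))) * (Real.sqrt n * w a) +
              Real.sqrt n ≤ d) →
          ExpDim L w P d := by
  obtain ⟨k, δ, σ, hD, hk⟩ := exists_wedgeX hn
  have h16 : (16 : ℝ) ≤ n := by
    refine le_trans ?_ hn
    calc (16 : ℝ) = 2 ^ 4 := by norm_num
      _ ≤ 2 ^ 1000 := pow_le_pow_right₀ (by norm_num) (by norm_num)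
  clear hn
  have hn16 : 16 ≤ n := by exact_mod_cast h16
  obtain ⟨F, hF, hF'⟩ := wedge_points (L := L) (by omega) hD w
  refine ⟨F, hF, fun P hP d hd h => hF' P hP d hd ?_⟩
  obtain ⟨x, hx⟩ : ∃ x, x = n * Real.exp (-((n : ℝ) ^ (1 / 10 : ℝ))) := ⟨_, rfl⟩
  rw [← hx] at h hk
  have hS : (0 : ℝ) ≤ ∑ a, (w a : ℝ) := Finset.sum_nonneg fun a _ => Nat.cast_nonneg _
  rcases h with h | h
  · left
    refine h.trans (mul_le_mul_of_nonneg_right (by linarith) hS)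
  · right
    intro a
    refine le_trans ?_ (h a)
    have h1 : (0 : ℝ) ≤ Real.sqrt n * w a := by positivity
    have := mul_le_mul_of_nonneg_right (show 1 + 1 / (n : ℝ) ^ k ≤ 1 + x by linarith) h1
    linarith

end Pool.Agent.W609.U
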